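import Pool.Agent.SBV.St
import Pool.Agent.SAV.Cel
import Pool.Agent.SAV.Cnt

/-!
# The affine average
-/

set_option autoImplicit false

open Finset

namespace Pool.Agent.SBV

open Pool.Agent.SAV

namespace Affx

/-- The position of the point `z = (cell, residue)`. -/
def pos (P : ℕ) (w : ℕ × ℕ) (z : Σ _ : ℕ, ℕ) : ℕ := z.1 * P + 1 + (w.1 * z.2 + w.2) % P

/-- The affine maps. -/
def Om (P : ℕ) : Finset (ℕ × ℕ) := (Ico 1 P) ×ˢ (range P)

lemma card_Om (P : ℕ) : (Om P).card = (P - 1) * P := by
  rw [Om, Finset.card_product, Nat.card_Ico, Finset.card_range]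

lemma img_eq (P J : ℕ) (S : ℕ → Finset ℕ) (w : ℕ × ℕ) :
    img P J S w.1 w.2 = ((range J).sigma S).image (pos P w) := by
  ext a
  simp only [img, Finset.mem_biUnion, Finset.mem_image, Finset.mem_range, Finset.mem_sigma, pos]
  constructor
  · rintro ⟨j, hj, t, ht, h⟩
    exact ⟨⟨j, t⟩, ⟨hj, ht⟩, h⟩
  · rintro ⟨⟨j, t⟩, ⟨hj, ht⟩, h⟩
    exact ⟨j, hj, t, ht, h⟩

lemma pos_cell (P : ℕ) (hP : 0 < P) (w : ℕ × ℕ) (z : Σ _ : ℕ, ℕ) :
    z.1 * P < pos P w z ∧ pos P w z ≤ (z.1 + 1) * P := by
  have h := Nat.mod_lt (w.1 * z.2 + w.2) hP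
  have h2 : (z.1 + 1) * P = z.1 * P + P := by ring
  unfold pos
  omega

lemma cell_unique (P i j x : ℕ) (h1 : i * P < x) (h2 : x ≤ (i + 1) * P) (h3 : j * P < x)
    (h4 : x ≤ (j + 1) * P) : i = j := by
  have h5 : i < j + 1 := by
    by_contra h
    have := Nat.mul_le_mul_right P (not_lt.1 h)
    omega
  have h6 : j < i + 1 := by
    by_contra h
    have := Nat.mul_le_mul_right P (not_lt.1 h)
    omega
  omega

/-- An affine map modulo `P` is determined by its values at two distinct residues. -/
lemma affine_inj (P : ℕ) (hP : P.Prime) (t t' : ℕ) (ht : t < P) (ht' : t' < P) (htt : t ≠ t')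
    (w w' : ℕ × ℕ) (hw : w ∈ Om P) (hw' : w' ∈ Om P)
    (h1 : (w.1 * t + w.2) % P = (w'.1 * t + w'.2) % P)
    (h2 : (w.1 * t' + w.2) % P = (w'.1 * t' + w'.2) % P) : w = w' := by
  obtain ⟨u, v⟩ := w
  obtain ⟨u', v'⟩ := w'
  simp only [Om, Finset.mem_product, Finset.mem_Ico, Finset.mem_range] at hw hw'
  simp only at h1 h2
  have e1 : (P : ℤ) ∣ ((u' * t + v' : ℕ) : ℤ) - ((u * t + v : ℕ) : ℤ) :=
    (Nat.modEq_iff_dvd).1 h1
  have e2 : (P : ℤ) ∣ ((u' * t' + v' : ℕ) : ℤ) - ((u * t' + v : ℕ) : ℤ) :=
    (Nat.modEq_iff_dvd).1 h2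
  have hPZ : Prime (P : ℤ) := Nat.prime_iff_prime_int.1 hP
  have e3 : (P : ℤ) ∣ ((u' : ℤ) - u) * ((t : ℤ) - t') := by
    have := dvd_sub e1 e2
    have e4 : ((u' * t + v' : ℕ) : ℤ) - ((u * t + v : ℕ) : ℤ)
        - (((u' * t' + v' : ℕ) : ℤ) - ((u * t' + v : ℕ) : ℤ))
        = ((u' : ℤ) - u) * ((t : ℤ) - t') := by
      push_cast
      ring
    rwa [e4] at this
  have hsmall : ∀ x : ℤ, (P : ℤ) ∣ x → -(P : ℤ) < x → x < P → x = 0 := by
    intro x hx h3 h4
    apply Int.eq_zero_of_abs_lt_dvd hx
    rw [abs_lt]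
    exact ⟨h3, h4⟩
  have hu : u' = u := by
    rcases hPZ.dvd_or_dvd e3 with h3 | h3
    · have := hsmall _ h3 (by omega) (by omega)
      omega
    · exfalso
      have := hsmall _ h3 (by omega) (by omega)
      omega
  subst hu
  have e5 : ((u' * t + v' : ℕ) : ℤ) - ((u' * t + v : ℕ) : ℤ) = (v' : ℤ) - v := by
    push_cast
    ring
  rw [e5] at e1
  have := hsmall _ e1 (by omega) (by omega)
  have hv : v = v' := by omega
  rw [hv]

/-- Points of `Z` have distinct residues. -/
lemma res_ne (P J : ℕ) (S : ℕ → Finset ℕ) (hS : ∀ j < J, S j ⊆ range P)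
    (hd : ∀ i < J, ∀ j < J, i ≠ j → Disjoint (S i) (S j)) (z z' : Σ _ : ℕ, ℕ)
    (hz : z ∈ (range J).sigma S) (hz' : z' ∈ (range J).sigma S) (hne : z ≠ z') :
    z.2 ≠ z'.2 ∧ z.2 < P ∧ z'.2 < P := by
  rw [Finset.mem_sigma, Finset.mem_range] at hz hz'
  refine ⟨?_, Finset.mem_range.1 (hS _ hz.1 hz.2), Finset.mem_range.1 (hS _ hz'.1 hz'.2)⟩
  intro h
  by_cases h1 : z.1 = z'.1
  · apply hne
    obtain ⟨i, t⟩ := z
    obtain ⟨j, t'⟩ := z'
    simp only at h h1
    rw [h, h1]
  · have h2 := Finset.disjoint_left.1 (hd _ hz.1 _ hz'.1 h1) hz.2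
    rw [h] at h2
    exact h2 hz'.2

lemma pos_inj (P J : ℕ) (hP : P.Prime) (S : ℕ → Finset ℕ) (hS : ∀ j < J, S j ⊆ range P)
    (w : ℕ × ℕ) (hw : w ∈ Om P) :
    Set.InjOn (pos P w) ((range J).sigma S : Finset (Σ _ : ℕ, ℕ)) := by
  intro z hz z' hz' h
  rw [Finset.mem_coe, Finset.mem_sigma, Finset.mem_range] at hz hz'
  have hc := pos_cell P hP.pos w z
  have hc' := pos_cell P hP.pos w z'
  rw [← h] at hc'
  have h1 := cell_unique P _ _ _ hc.1 hc.2 hc'.1 hc'.2
  obtain ⟨i, t⟩ := z
  obtain ⟨j, t'⟩ := z'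
  obtain ⟨u, v⟩ := w
  simp only [Om, Finset.mem_product, Finset.mem_Ico, Finset.mem_range] at hw
  simp only at h1 hz hz'
  subst h1
  have h2 : (u * t + v) % P = (u * t' + v) % P := by
    unfold pos at h
    simp only at h
    omega
  have e1 : (P : ℤ) ∣ ((u * t' + v : ℕ) : ℤ) - ((u * t + v : ℕ) : ℤ) :=
    (Nat.modEq_iff_dvd).1 h2
  have e2 : ((u * t' + v : ℕ) : ℤ) - ((u * t + v : ℕ) : ℤ) = (u : ℤ) * ((t' : ℤ) - t) := by
    push_cast
    ring
  rw [e2] at e1
  have hPZ : Prime (P : ℤ) := Nat.prime_iff_prime_int.1 hP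
  have ht := Finset.mem_range.1 (hS _ hz.1 hz.2)
  have ht' := Finset.mem_range.1 (hS _ hz'.1 hz'.2)
  rcases hPZ.dvd_or_dvd e1 with h3 | h3
  · exfalso
    have := Int.eq_zero_of_abs_lt_dvd h3 (by rw [abs_lt]; constructor <;> omega)
    omega
  · have := Int.eq_zero_of_abs_lt_dvd h3 (by rw [abs_lt]; constructor <;> omega)
    have h4 : t = t' := by omega
    rw [h4]

/-- The number of affine maps with a relation between two positions. -/
lemma count_le (P J N : ℕ) (hP : P.Prime) (hN : J * P ≤ N) (S : ℕ → Finset ℕ)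
    (hS : ∀ j < J, S j ⊆ range P)
    (hd : ∀ i < J, ∀ j < J, i ≠ j → Disjoint (S i) (S j)) (f : ℕ → ℕ) (z z' : Σ _ : ℕ, ℕ)
    (hz : z ∈ (range J).sigma S) (hz' : z' ∈ (range J).sigma S) (hne : z ≠ z') :
    ((Om P).filter fun w => pos P w z' = f (pos P w z)).card
      ≤ ((Icc 1 N).filter fun x => (z.1 * P < x ∧ x ≤ (z.1 + 1) * P) ∧
          z'.1 * P < f x ∧ f x ≤ (z'.1 + 1) * P).card := by
  have hr := res_ne P J S hS hd z z' hz hz' hne
  apply Finset.card_le_card_of_injOn (fun w => pos P w z)
  · intro w hw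
    rw [Finset.mem_coe, Finset.mem_filter] at hw
    have h1 := pos_cell P hP.pos w z
    have h2 := pos_cell P hP.pos w z'
    rw [hw.2] at h2
    rw [Finset.mem_coe, Finset.mem_filter, Finset.mem_Icc]
    rw [Finset.mem_sigma, Finset.mem_range] at hz
    have h3 : (z.1 + 1) * P ≤ J * P := Nat.mul_le_mul_right P hz.1
    have h4 : 1 ≤ pos P w z := by omega
    have h5 : pos P w z ≤ N := by omega
    exact ⟨⟨h4, h5⟩, h1, h2⟩
  · intro w hw w' hw' h
    rw [Finset.mem_coe, Finset.mem_filter] at hw hw'
    have h1 : pos P w z = pos P w' z := h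
    have h2 : pos P w z' = pos P w' z' := by rw [hw.2, hw'.2, h1]
    apply affine_inj P hP z.2 z'.2 hr.2.1 hr.2.2 hr.1 w w' hw.1 hw'.1
    · unfold pos at h1
      omega
    · unfold pos at h2
      omega

/-- The average of a function of the random set. -/
lemma avg (P J N : ℕ) (hP : P.Prime) (hN : J * P ≤ N) (S : ℕ → Finset ℕ) (F : Finset ℕ → ℝ) :
    ∑ A ∈ (Icc 1 N).powerset,
        ((((Om P).filter fun w => img P J S w.1 w.2 = A).card : ℝ) / ((P - 1 : ℕ) * P : ℕ)) * F A
      = (∑ w ∈ Om P, F (img P J S w.1 w.2)) / ((P - 1 : ℕ) * P : ℕ) := by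
  rw [Finset.sum_div]
  have hmaps : ∀ w ∈ Om P, img P J S w.1 w.2 ∈ (Icc 1 N).powerset := by
    intro w _
    rw [Finset.mem_powerset]
    intro a ha
    rw [img_eq, Finset.mem_image] at ha
    obtain ⟨z, hz, rfl⟩ := ha
    rw [Finset.mem_sigma, Finset.mem_range] at hz
    have h1 := pos_cell P hP.pos w z
    have h3 : (z.1 + 1) * P ≤ J * P := Nat.mul_le_mul_right P hz.1
    rw [Finset.mem_Icc]
    omega
  rw [← Finset.sum_fiberwise_of_maps_to hmaps]
  refine Finset.sum_congr rfl fun A _ => ?_
  have h1 : ∀ w ∈ (Om P).filter (fun w => img P J S w.1 w.2 = A),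
      F (img P J S w.1 w.2) / ((P - 1 : ℕ) * P : ℕ) = F A / ((P - 1 : ℕ) * P : ℕ) := by
    intro w hw
    rw [(Finset.mem_filter.1 hw).2]
  rw [Finset.sum_congr rfl h1, Finset.sum_const, nsmul_eq_mul]
  ring

/-- Double sums over distinct points. -/
lemma sum_off (J : ℕ) (S : ℕ → Finset ℕ) (c : ℕ → ℕ → ℕ) :
    ∑ z ∈ (range J).sigma S, ∑ z' ∈ ((range J).sigma S).erase z, c z.1 z'.1
      + ∑ i ∈ range J, (S i).card * c i i
      = ∑ i ∈ range J, ∑ j ∈ range J, (S i).card * (S j).card * c i j := by
  classical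
  have h1 : ∑ i ∈ range J, (S i).card * c i i = ∑ z ∈ (range J).sigma S, c z.1 z.1 := by
    rw [Finset.sum_sigma]
    refine Finset.sum_congr rfl fun i _ => ?_
    simp only [Finset.sum_const, smul_eq_mul]
  have h2 : ∑ i ∈ range J, ∑ j ∈ range J, (S i).card * (S j).card * c i j
      = ∑ z ∈ (range J).sigma S, ∑ z' ∈ (range J).sigma S, c z.1 z'.1 := by
    rw [Finset.sum_sigma]
    refine Finset.sum_congr rfl fun i _ => ?_
    simp only [Finset.sum_const, smul_eq_mul]
    rw [Finset.sum_sigma, Finset.mul_sum]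
    refine Finset.sum_congr rfl fun j _ => ?_
    simp only [Finset.sum_const, smul_eq_mul]
    ring
  rw [h1, h2, ← Finset.sum_add_distrib]
  refine Finset.sum_congr rfl fun z hz => ?_
  exact Finset.sum_erase_add _ _ hz

/-- Pairs of points versus pairs of elements. -/
lemma diff_le (P J : ℕ) (hP : P.Prime) (S : ℕ → Finset ℕ) (w : ℕ × ℕ) (d : ℕ) (hd : 1 ≤ d) :
    diffCount (img P J S w.1 w.2) d
      ≤ ∑ z ∈ (range J).sigma S, ∑ z' ∈ ((range J).sigma S).erase z,
          (if pos P w z' = pos P w z + d then 1 else 0) := by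
  classical
  have h1 : ∑ z ∈ (range J).sigma S, ∑ z' ∈ ((range J).sigma S).erase z,
          (if pos P w z' = pos P w z + d then 1 else 0)
      = (((range J).sigma S).sigma fun z => (((range J).sigma S).erase z).filter
          fun z' => pos P w z' = pos P w z + d).card := by
    rw [Finset.card_sigma]
    refine Finset.sum_congr rfl fun z _ => ?_
    rw [Finset.card_filter]
  rw [h1]
  unfold diffCount
  refine (Finset.card_le_card ?_).trans (Finset.card_image_le
    (f := fun y : Σ _ : (Σ _ : ℕ, ℕ), (Σ _ : ℕ, ℕ) => pos P w y.1))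
  intro a ha
  rw [Finset.mem_filter, img_eq, Finset.mem_image, Finset.mem_image] at ha
  obtain ⟨⟨z, hz, rfl⟩, ⟨z', hz', h2⟩⟩ := ha
  rw [Finset.mem_image]
  refine ⟨⟨z, z'⟩, ?_, rfl⟩
  simp only [Finset.mem_sigma, Finset.mem_filter, Finset.mem_erase]
  rw [Finset.mem_sigma] at hz hz'
  refine ⟨hz, ⟨?_, hz'⟩, h2⟩
  rintro rfl
  omega

/-- Twice the number of sums. -/
lemma sum_le (P J : ℕ) (hP : P.Prime) (S : ℕ → Finset ℕ) (w : ℕ × ℕ) (s : ℕ) :
    2 * sumCount (img P J S w.1 w.2) s
      ≤ ∑ z ∈ (range J).sigma S, ∑ z' ∈ ((range J).sigma S).erase z,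
          (if pos P w z' = s - pos P w z then 1 else 0)
        + 2 * ∑ z ∈ (range J).sigma S, (if 2 * pos P w z = s then 1 else 0) := by
  classical
  set I := img P J S w.1 w.2 with hI
  have hpos : ∀ a ∈ I, 1 ≤ a := by
    intro a ha
    rw [hI, img_eq, Finset.mem_image] at ha
    obtain ⟨z, _, rfl⟩ := ha
    unfold pos
    omega
  -- the sets
  set B1 := I.filter (fun a => s - a ∈ I ∧ a < s - a) with hB1
  set B2 := I.filter (fun a => s - a ∈ I ∧ s - a < a) with hB2
  set B0 := I.filter (fun a => 2 * a = s) with hB0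
  have hs1 : sumCount I s ≤ B1.card + B0.card := by
    have h1 : sumCount I s ≤ (B1 ∪ B0).card := by
      unfold sumCount
      apply Finset.card_le_card_of_injOn (fun x => x.1)
      · intro x hx
        rw [Finset.mem_coe, Finset.mem_filter, Finset.mem_product] at hx
        rw [Finset.mem_coe, Finset.mem_union, hB1, hB0, Finset.mem_filter, Finset.mem_filter]
        have h2 : s - x.1 = x.2 := by omega
        rw [h2]
        rcases Nat.lt_or_ge x.1 x.2 with h3 | h3
        · exact Or.inl ⟨hx.1.1, hx.1.2, h3⟩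
        · have h4 : 2 * x.1 = s := by omega
          exact Or.inr ⟨hx.1.1, h4⟩
      · intro x hx y hy hxy
        rw [Finset.mem_coe, Finset.mem_filter, Finset.mem_product] at hx hy
        have hxy' : x.1 = y.1 := hxy
        refine Prod.ext hxy' ?_
        omega
    exact h1.trans (Finset.card_union_le _ _)
  have hs2 : B1.card ≤ B2.card := by
    apply Finset.card_le_card_of_injOn (fun a => s - a)
    · intro a ha
      rw [Finset.mem_coe, hB1, Finset.mem_filter] at ha
      rw [Finset.mem_coe, hB2, Finset.mem_filter]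
      have h1 := hpos _ ha.2.1
      have h2 : s - (s - a) = a := by omega
      refine ⟨ha.2.1, ?_, ?_⟩
      · rw [h2]
        exact ha.1
      · rw [h2]
        exact ha.2.2
    · intro a ha b hb hab
      rw [Finset.mem_coe, hB1, Finset.mem_filter] at ha hb
      have hab' : s - a = s - b := hab
      have h1 := hpos _ ha.2.1
      have h2 := hpos _ hb.2.1
      omega
  have hdisj : Disjoint B1 B2 := by
    rw [Finset.disjoint_left]
    intro a ha hb
    rw [hB1, Finset.mem_filter] at ha
    rw [hB2, Finset.mem_filter] at hb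
    omega
  have h1 : ∑ z ∈ (range J).sigma S, ∑ z' ∈ ((range J).sigma S).erase z,
          (if pos P w z' = s - pos P w z then 1 else 0)
      = (((range J).sigma S).sigma fun z => (((range J).sigma S).erase z).filter
          fun z' => pos P w z' = s - pos P w z).card := by
    rw [Finset.card_sigma]
    refine Finset.sum_congr rfl fun z _ => ?_
    rw [Finset.card_filter]
  have hs3 : (B1 ∪ B2).card ≤ ∑ z ∈ (range J).sigma S, ∑ z' ∈ ((range J).sigma S).erase z,
          (if pos P w z' = s - pos P w z then 1 else 0) := by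
    rw [h1]
    refine (Finset.card_le_card ?_).trans (Finset.card_image_le
      (f := fun y : Σ _ : (Σ _ : ℕ, ℕ), (Σ _ : ℕ, ℕ) => pos P w y.1))
    intro a ha
    rw [Finset.mem_union, hB1, hB2, Finset.mem_filter, Finset.mem_filter] at ha
    have ha1 : a ∈ I := by
      rcases ha with h | h
      · exact h.1
      · exact h.1
    have ha2 : s - a ∈ I := by
      rcases ha with h | h
      · exact h.2.1
      · exact h.2.1
    have ha3 : s - a ≠ a := by
      rcases ha with h | h
      · omega
      · omega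
    rw [hI, img_eq, Finset.mem_image] at ha1 ha2
    obtain ⟨z, hz, rfl⟩ := ha1
    obtain ⟨z', hz', h2⟩ := ha2
    rw [Finset.mem_image]
    refine ⟨⟨z, z'⟩, ?_, rfl⟩
    simp only [Finset.mem_sigma, Finset.mem_filter, Finset.mem_erase]
    rw [Finset.mem_sigma] at hz hz'
    refine ⟨hz, ⟨?_, hz'⟩, h2⟩
    rintro rfl
    exact ha3 h2.symm
  have hs4 : B0.card ≤ ∑ z ∈ (range J).sigma S, (if 2 * pos P w z = s then 1 else 0) := by
    rw [← Finset.card_filter]
    refine (Finset.card_le_card ?_).trans (Finset.card_image_le (f := pos P w))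
    intro a ha
    rw [hB0, Finset.mem_filter, hI, img_eq, Finset.mem_image] at ha
    obtain ⟨⟨z, hz, rfl⟩, h2⟩ := ha
    rw [Finset.mem_image]
    exact ⟨z, Finset.mem_filter.2 ⟨hz, h2⟩, rfl⟩
  rw [Finset.card_union_of_disjoint hdisj] at hs3
  omega

/-- Exchanging the summations. -/
lemma swap (P J : ℕ) (S : ℕ → Finset ℕ) (f : ℕ → ℕ) :
    ∑ w ∈ Om P, ∑ z ∈ (range J).sigma S, ∑ z' ∈ ((range J).sigma S).erase z,
        (if pos P w z' = f (pos P w z) then 1 else 0)
      = ∑ z ∈ (range J).sigma S, ∑ z' ∈ ((range J).sigma S).erase z,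
          ((Om P).filter fun w => pos P w z' = f (pos P w z)).card := by
  rw [Finset.sum_comm]
  refine Finset.sum_congr rfl fun z _ => ?_
  rw [Finset.sum_comm]
  refine Finset.sum_congr rfl fun z' _ => ?_
  rw [Finset.card_filter]

lemma swap_le (P J N : ℕ) (hP : P.Prime) (hN : J * P ≤ N) (S : ℕ → Finset ℕ)
    (hS : ∀ j < J, S j ⊆ range P)
    (hd : ∀ i < J, ∀ j < J, i ≠ j → Disjoint (S i) (S j)) (f : ℕ → ℕ) (c : ℕ → ℕ → ℕ)
    (hc : ∀ i j, i < J → ((Icc 1 N).filter fun x => (i * P < x ∧ x ≤ (i + 1) * P) ∧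
          j * P < f x ∧ f x ≤ (j + 1) * P).card = c i j) :
    ∑ w ∈ Om P, ∑ z ∈ (range J).sigma S, ∑ z' ∈ ((range J).sigma S).erase z,
        (if pos P w z' = f (pos P w z) then 1 else 0) + ∑ i ∈ range J, (S i).card * c i i
      ≤ ∑ i ∈ range J, ∑ j ∈ range J, (S i).card * (S j).card * c i j := by
  rw [swap, ← sum_off]
  refine Nat.add_le_add_right (Finset.sum_le_sum fun z hz => Finset.sum_le_sum fun z' hz' => ?_) _
  rw [Finset.mem_erase] at hz'
  have h := count_le P J N hP hN S hS hd f z z' hz hz'.2 (Ne.symm hz'.1)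
  rw [hc z.1 z'.1 (Finset.mem_range.1 (Finset.mem_sigma.1 hz).1)] at h
  exact h

end Affx

open Affx in
theorem thm_Aff : St_Aff := by
  classical
  intro P J N S hP hN hS hd hR hR0 hQ
  have hP2 := hP.two_le
  have hP0 : 0 < P := hP.pos
  have hden : 0 < (P - 1) * P := Nat.mul_pos (by omega) hP0
  have hdenR : (0 : ℝ) < (((P - 1) * P : ℕ) : ℝ) := by exact_mod_cast hden
  have hcellN : ∀ i, i < J → (i + 1) * P ≤ N := fun i hi =>
    (Nat.mul_le_mul_right P hi).trans hN
  set p : Finset ℕ → ℝ := fun A =>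
    (((Om P).filter fun w => img P J S w.1 w.2 = A).card : ℝ) / (((P - 1) * P : ℕ) : ℝ) with hp
  have havg : ∀ F : Finset ℕ → ℝ, ∑ A ∈ (Icc 1 N).powerset, p A * F A
      = (∑ w ∈ Om P, F (img P J S w.1 w.2)) / (((P - 1) * P : ℕ) : ℝ) := fun F =>
    avg P J N hP hN S F
  have hR' : ∀ e : ℕ, 1 ≤ e → ∑ i ∈ range J, ∑ j ∈ range J,
      (if j = i + e then (S i).card * (S j).card else 0) ≤ P - 1 := by
    intro e he
    have h := Celx.sum_diag J e (fun j => ((S j).card : ℝ))
    have h2 := hR e he
    have h3 : ((∑ i ∈ range J, ∑ j ∈ range J,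
        (if j = i + e then (S i).card * (S j).card else 0) : ℕ) : ℝ)
        = ((∑ j ∈ range (J - e), (S j).card * (S (j + e)).card : ℕ) : ℝ) := by
      push_cast
      exact h
    have h4 : ∑ i ∈ range J, ∑ j ∈ range J,
        (if j = i + e then (S i).card * (S j).card else 0)
        = ∑ j ∈ range (J - e), (S j).card * (S (j + e)).card := by exact_mod_cast h3
    rw [h4]
    exact h2
  refine ⟨p, ⟨?_, ?_, ?_, ?_⟩, ?_, ?_⟩
  · intro A _
    exact div_nonneg (Nat.cast_nonneg _) (Nat.cast_nonneg _)
  · have h := havg (fun _ => 1)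
    simp only [mul_one, Finset.sum_const, nsmul_eq_mul] at h
    rw [h, card_Om, div_self hdenR.ne']
  · intro d hd1
    rw [havg (fun A => (diffCount A d : ℝ)), div_le_one hdenR]
    have h1 : ∑ w ∈ Om P, diffCount (img P J S w.1 w.2) d ≤ (P - 1) * P := by
      have h2 : ∑ w ∈ Om P, diffCount (img P J S w.1 w.2) d
          ≤ ∑ w ∈ Om P, ∑ z ∈ (range J).sigma S, ∑ z' ∈ ((range J).sigma S).erase z,
            (if pos P w z' = pos P w z + d then 1 else 0) :=
        Finset.sum_le_sum fun w _ => diff_le P J hP S w d hd1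
      -- decomposition of d
      obtain ⟨e, he⟩ : ∃ e, e = d / P := ⟨_, rfl⟩
      obtain ⟨t, ht⟩ : ∃ t, t = d % P := ⟨_, rfl⟩
      have hdet : e * P + t = d := by
        have h := Nat.div_add_mod d P
        rw [Nat.mul_comm, ← he, ← ht] at h
        exact h
      have htP : t < P := by
        rw [ht]
        exact Nat.mod_lt _ hP0
      have h3 := swap_le P J N hP hN S hS hd (fun x => x + d)
        (fun i j => if j = i + e then P - t else if j = i + e + 1 then t else 0)
        (fun i j hi => by
          have h := thm_Cnd P N i j e t htP (hcellN i hi)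
          rw [hdet] at h
          exact h)
      have h4 : ∑ i ∈ range J, ∑ j ∈ range J, (S i).card * (S j).card *
            (if j = i + e then P - t else if j = i + e + 1 then t else 0)
          = (P - t) * (∑ i ∈ range J, ∑ j ∈ range J,
              (if j = i + e then (S i).card * (S j).card else 0))
            + t * (∑ i ∈ range J, ∑ j ∈ range J,
              (if j = i + (e + 1) then (S i).card * (S j).card else 0)) := by
        rw [Finset.mul_sum, Finset.mul_sum, ← Finset.sum_add_distrib]
        refine Finset.sum_congr rfl fun i _ => ?_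
        rw [Finset.mul_sum, Finset.mul_sum, ← Finset.sum_add_distrib]
        refine Finset.sum_congr rfl fun j _ => ?_
        by_cases h5 : j = i + e
        · rw [if_pos h5, if_pos h5, if_neg (by omega)]
          ring
        · rw [if_neg h5, if_neg h5]
          by_cases h6 : j = i + e + 1
          · rw [if_pos h6, if_pos (by omega)]
            ring
          · rw [if_neg h6, if_neg (by omega)]
            ring
      rw [h4] at h3
      have h7 := Nat.mul_le_mul_left t (hR' (e + 1) (by omega))
      have h8 : (P - t) * (P - 1) + t * (P - 1) = (P - 1) * P := by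
        rw [← Nat.add_mul, Nat.sub_add_cancel htP.le, Nat.mul_comm]
      by_cases he0 : e = 0
      · -- the same cell
        rw [he0] at h3
        have h9 : ∑ i ∈ range J, ∑ j ∈ range J,
              (if j = i + 0 then (S i).card * (S j).card else 0)
            = ∑ i ∈ range J, (S i).card * (S i).card := by
          refine Finset.sum_congr rfl fun i hi => ?_
          rw [Finset.sum_ite_eq' (range J) (i + 0) (fun j => (S i).card * (S j).card)]
          rw [if_pos (by simpa using hi), Nat.add_zero]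
        have h10 : ∑ i ∈ range J, (S i).card * (if i = i + 0 then P - t
              else if i = i + 0 + 1 then t else 0) = (P - t) * ∑ i ∈ range J, (S i).card := by
          rw [Finset.mul_sum]
          refine Finset.sum_congr rfl fun i _ => ?_
          rw [if_pos (show i = i + 0 by omega)]
          ring
        have h11 : ∑ i ∈ range J, (S i).card * (S i).card
            = ∑ i ∈ range J, (S i).card * ((S i).card - 1) + ∑ i ∈ range J, (S i).card := by
          rw [← Finset.sum_add_distrib]
          refine Finset.sum_congr rfl fun i _ => ?_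
          rcases Nat.eq_zero_or_pos (S i).card with h12 | h12
          · rw [h12]
          · obtain ⟨m, hm⟩ : ∃ m, (S i).card = m + 1 := ⟨(S i).card - 1, by omega⟩
            rw [hm]
            simp only [Nat.add_sub_cancel]
            ring
        rw [h9, h10, h11, Nat.mul_add] at h3
        rw [he0] at h7
        have h12 := Nat.mul_le_mul_left (P - t) hR0
        simp only [Nat.zero_add] at h7 h3
        omega
      · have h9 := Nat.mul_le_mul_left (P - t) (hR' e (Nat.one_le_iff_ne_zero.2 he0))
        omega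
    exact_mod_cast h1
  · intro s
    rw [havg (fun A => (sumCount A s : ℝ)), div_le_one hdenR]
    have h1 : 2 * ∑ w ∈ Om P, sumCount (img P J S w.1 w.2) s ≤ 2 * ((P - 1) * P) := by
      have h2 : 2 * ∑ w ∈ Om P, sumCount (img P J S w.1 w.2) s
          ≤ ∑ w ∈ Om P, ∑ z ∈ (range J).sigma S, ∑ z' ∈ ((range J).sigma S).erase z,
            (if pos P w z' = s - pos P w z then 1 else 0)
            + 2 * ∑ z ∈ (range J).sigma S, ((Om P).filter fun w => 2 * pos P w z = s).card := by
        have h3 : ∑ z ∈ (range J).sigma S, ((Om P).filter fun w => 2 * pos P w z = s).card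
            = ∑ w ∈ Om P, ∑ z ∈ (range J).sigma S, (if 2 * pos P w z = s then 1 else 0) := by
          rw [Finset.sum_comm]
          refine Finset.sum_congr rfl fun z _ => ?_
          rw [Finset.card_filter]
        rw [h3, Finset.mul_sum, Finset.mul_sum, ← Finset.sum_add_distrib]
        exact Finset.sum_le_sum fun w _ => sum_le P J hP S w s
      rcases Nat.eq_zero_or_pos J with hJ | hJ
      · subst hJ
        have hZ : (range 0).sigma S = ∅ := by
          ext x
          simp
        rw [hZ] at h2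
        simp only [Finset.sum_empty, Finset.sum_const_zero, Nat.mul_zero, Nat.add_zero] at h2
        omega
      rcases Nat.eq_zero_or_pos s with hs | hs
      · -- no sums
        subst hs
        have h3 : ∀ w : ℕ × ℕ, sumCount (img P J S w.1 w.2) 0 = 0 := by
          intro w
          unfold sumCount
          rw [Finset.card_eq_zero, Finset.filter_eq_empty_iff]
          intro x hx
          rw [Finset.mem_product, img_eq, Finset.mem_image, Finset.mem_image] at hx
          obtain ⟨⟨z, _, h4⟩, _⟩ := hx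
          have h5 := (pos_cell P hP0 w z).1
          omega
        rw [Finset.sum_congr rfl fun w _ => h3 w]
        simp
      obtain ⟨e, he⟩ : ∃ e, e = (s - 1) / P := ⟨_, rfl⟩
      obtain ⟨t, ht⟩ : ∃ t, t = (s - 1) % P + 1 := ⟨_, rfl⟩
      have hs' : e * P + t = s := by
        have h := Nat.div_add_mod (s - 1) P
        rw [Nat.mul_comm, ← he] at h
        omega
      have ht1 : 1 ≤ t := by omega
      have ht2 : t ≤ P := by
        have := Nat.mod_lt (s - 1) hP0
        omega
      have h3 := swap_le P J N hP hN S hS hd (fun x => s - x)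
        (fun i j => if i + j = e then t - 1 else if i + j + 1 = e then P + 1 - t else 0)
        (fun i j hi => by
          have h := thm_Cns P N i j e t ht1 ht2 (hcellN i hi)
          rw [hs'] at h
          exact h)
      have h4 : ∑ i ∈ range J, ∑ j ∈ range J, (S i).card * (S j).card *
            (if i + j = e then t - 1 else if i + j + 1 = e then P + 1 - t else 0)
          = (t - 1) * (∑ i ∈ range J, ∑ j ∈ range J,
              (if i + j = e then (S i).card * (S j).card else 0))
            + (P + 1 - t) * (∑ i ∈ range J, ∑ j ∈ range J,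
              (if i + j + 1 = e then (S i).card * (S j).card else 0)) := by
        rw [Finset.mul_sum, Finset.mul_sum, ← Finset.sum_add_distrib]
        refine Finset.sum_congr rfl fun i _ => ?_
        rw [Finset.mul_sum, Finset.mul_sum, ← Finset.sum_add_distrib]
        refine Finset.sum_congr rfl fun j _ => ?_
        by_cases h5 : i + j = e
        · rw [if_pos h5, if_pos h5, if_neg (by omega)]
          ring
        · rw [if_neg h5, if_neg h5]
          by_cases h6 : i + j + 1 = e
          · rw [if_pos h6, if_pos h6]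
            ring
          · rw [if_neg h6, if_neg h6]
            ring
      have hA1 : ∑ i ∈ range J, ∑ j ∈ range J,
          (if i + j = e then (S i).card * (S j).card else 0) ≤ ∑ i ∈ range J, (S i).card ^ 2 := by
        have h := Celx.sum_anti J (fun j => ((S j).card : ℝ)) (fun i j => i + j = e)
          (fun i j j' h h' => by omega) (fun i i' j h h' => by omega)
        exact_mod_cast h
      have hA2 : ∑ i ∈ range J, ∑ j ∈ range J,
          (if i + j + 1 = e then (S i).card * (S j).card else 0)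
            ≤ ∑ i ∈ range J, (S i).card ^ 2 := by
        have h := Celx.sum_anti J (fun j => ((S j).card : ℝ)) (fun i j => i + j + 1 = e)
          (fun i j j' h h' => by omega) (fun i i' j h h' => by omega)
        exact_mod_cast h
      rw [h4] at h3
      have h7 := Nat.mul_le_mul_left (t - 1) hA1
      have h8 := Nat.mul_le_mul_left (P + 1 - t) hA2
      have h9 : (t - 1) * (∑ i ∈ range J, (S i).card ^ 2)
          + (P + 1 - t) * (∑ i ∈ range J, (S i).card ^ 2) = P * ∑ i ∈ range J, (S i).card ^ 2 := by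
        rw [← Nat.add_mul]
        congr 1
        omega
      -- the diagonal
      have h10 : ∃ i0 < J, ∑ z ∈ (range J).sigma S,
          ((Om P).filter fun w => 2 * pos P w z = s).card ≤ (S i0).card * (P - 1) := by
        have h11 : ∀ z : Σ _ : ℕ, ℕ, ((Om P).filter fun w => 2 * pos P w z = s).card ≤ P - 1 := by
          intro z
          have h12 : (Ico 1 P).card = P - 1 := Nat.card_Ico 1 P
          rw [← h12]
          apply Finset.card_le_card_of_injOn (fun w => w.1)
          · intro w hw
            rw [Finset.mem_coe, Finset.mem_filter, Om, Finset.mem_product] at hw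
            exact hw.1.1
          · intro w hw w' hw' hww
            rw [Finset.mem_coe, Finset.mem_filter, Om, Finset.mem_product, Finset.mem_range] at hw hw'
            have hww' : w.1 = w'.1 := hww
            have h13 : pos P w z = pos P w' z := by omega
            unfold pos at h13
            rw [hww'] at h13
            have h14 : (w'.1 * z.2 + w.2) % P = (w'.1 * z.2 + w'.2) % P := by omega
            have h15 : w.2 % P = w'.2 % P := Nat.ModEq.add_left_cancel' _ h14
            rw [Nat.mod_eq_of_lt hw.1.2, Nat.mod_eq_of_lt hw'.1.2] at h15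
            exact Prod.ext hww' h15
        by_cases h12 : ∃ i0 < J, ∃ x, 2 * x = s ∧ i0 * P < x ∧ x ≤ (i0 + 1) * P
        · obtain ⟨i0, hi0, x, hx, hx1, hx2⟩ := h12
          refine ⟨i0, hi0, ?_⟩
          rw [Finset.sum_sigma, Finset.sum_eq_single_of_mem i0 (Finset.mem_range.2 hi0)]
          · refine (Finset.sum_le_sum fun y _ => h11 ⟨i0, y⟩).trans ?_
            rw [Finset.sum_const, smul_eq_mul]
          · intro i _ hi
            refine Finset.sum_eq_zero fun y _ => ?_
            rw [Finset.card_eq_zero, Finset.filter_eq_empty_iff]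
            intro w _ hw
            have h13 := pos_cell P hP0 w ⟨i, y⟩
            have h14 : pos P w ⟨i, y⟩ = x := by omega
            rw [h14] at h13
            exact hi (cell_unique P i i0 x h13.1 h13.2 hx1 hx2)
        · refine ⟨0, hJ, ?_⟩
          rw [Finset.sum_eq_zero]
          · exact Nat.zero_le _
          · intro z hz
            rw [Finset.card_eq_zero, Finset.filter_eq_empty_iff]
            intro w _ hw
            have h13 := pos_cell P hP0 w z
            exact h12 ⟨z.1, Finset.mem_range.1 (Finset.mem_sigma.1 hz).1, _, hw, h13.1, h13.2⟩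
      obtain ⟨i0, hi0, h11⟩ := h10
      have h12 := hQ i0 hi0
      have h13 := Nat.mul_le_mul_left P h12
      have h14 : P * (∑ j ∈ range J, (S j).card ^ 2 + 2 * (S i0).card)
          = P * ∑ j ∈ range J, (S j).card ^ 2 + 2 * (P * (S i0).card) := by ring
      have h15 : P * (2 * (P - 1)) = 2 * ((P - 1) * P) := by ring
      have h16 : (S i0).card * (P - 1) ≤ P * (S i0).card := by
        rw [Nat.mul_comm P]
        exact Nat.mul_le_mul_left _ (Nat.sub_le _ _)
      omega
    have h2 : ∑ w ∈ Om P, sumCount (img P J S w.1 w.2) s ≤ (P - 1) * P := by omega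
    exact_mod_cast h2
  · unfold meanCard
    rw [havg (fun A => (A.card : ℝ))]
    have h1 : ∀ w ∈ Om P, ((img P J S w.1 w.2).card : ℝ) = ∑ j ∈ range J, ((S j).card : ℝ) := by
      intro w hw
      rw [img_eq, Finset.card_image_of_injOn (pos_inj P J hP S hS w hw), Finset.card_sigma]
      push_cast
      rfl
    rw [Finset.sum_congr rfl h1, Finset.sum_const, card_Om, nsmul_eq_mul,
      mul_div_cancel_left₀ _ hdenR.ne']
  · intro A hA
    rw [hp] at hA
    simp only at hA
    have h1 : ((Om P).filter fun w => img P J S w.1 w.2 = A).card ≠ 0 := by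
      intro h
      apply hA
      rw [h]
      simp
    obtain ⟨w, hw⟩ := Finset.card_pos.1 (Nat.pos_of_ne_zero h1)
    rw [Finset.mem_filter, Om, Finset.mem_product, Finset.mem_Ico, Finset.mem_range] at hw
    exact ⟨w.1, w.2, hw.1.1.1, hw.1.1.2, hw.1.2, hw.2.symm⟩

end Pool.Agent.SBV
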