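import Pool.Agent.SBV.St

/-!
# The barrier theorem: assembly
-/

set_option autoImplicit false

open Finset

namespace Pool.Agent.SBV

open Pool.Agent.SAV

namespace Asmx

theorem sidonF_mono {A B : Finset ℕ} (hAB : A ⊆ B) (hB : SidonF B) : SidonF A :=
  fun a ha b hb c hc d hd h => hB a (hAB ha) b (hAB hb) c (hAB hc) d (hAB hd) h

theorem cast_mul_pred (n : ℕ) : ((n * (n - 1) : ℕ) : ℝ) = (n : ℝ) ^ 2 - n := by
  rcases Nat.eq_zero_or_pos n with h | h
  · subst h
    simp
  · rw [Nat.cast_mul, Nat.cast_sub h]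
    ring

end Asmx

open Asmx in
theorem thm_Bar (hPrf : Pool.Agent.SAV.St_Prf) (hRsm : Pool.Agent.SAV.St_Rsm)
    (hRlg : Pool.Agent.SAV.St_Rlg) (hPat : St_Pat) (hAff : St_Aff) (hLoc : St_Loc)
    (hRnd : St_Rnd) (hNua : St_Nua) (hNub : St_Nub) : St_Bar := by
  intro ε hε
  obtain ⟨η, hη, hη2, N0, hN0⟩ := hNua ε hε
  obtain ⟨c, hc, N1, hN1⟩ := hNub η hη hη2
  refine ⟨c, hc, max N0 N1, fun N hN => ?_⟩
  obtain ⟨P, J, U, G, hP, hG, hJP, hGood, hP1, hP2, hJ2, hGU, a1, a2, a3, a4⟩ :=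
    hN0 N (le_trans (le_max_left _ _) hN)
  obtain ⟨l, W, h, hl, hl5, hlP, hb1, hb2, hb3, hb4, hb5⟩ :=
    hN1 N P J (le_trans (le_max_right _ _) hN) hP hJP hP1 hP2 hJ2
  obtain ⟨f0, f1, f2, f3⟩ := hPrf U J hGood
  have hU100 : (100 : ℝ) ≤ U := by exact_mod_cast hGood.hU
  have hPpos : 1 ≤ P := hP.one_lt.le
  have hPr : ((P - 1 : ℕ) : ℝ) = (P : ℝ) - 1 := by rw [Nat.cast_sub hPpos, Nat.cast_one]
  -- the profile
  obtain ⟨lam, hlam⟩ : ∃ lam : ℕ → ℝ, ∀ j, lam j = if j < J then G * (1 + pf U J j) else 0 :=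
    ⟨_, fun _ => rfl⟩
  have hlamJ : ∀ j < J, lam j = G * (1 + pf U J j) := fun j hj => by rw [hlam, if_pos hj]
  have hlam0 : ∀ j, 0 ≤ lam j := by
    intro j
    rw [hlam]
    split_ifs with hj
    · exact mul_nonneg hG.le (f0 j hj).1
    · exact le_rfl
  have hlamU : ∀ j < J, lam j ≤ G * U := by
    intro j hj
    rw [hlamJ j hj]
    exact mul_le_mul_of_nonneg_left (f0 j hj).2 hG.le
  have hvar : ∑ i ∈ range (J - 1), |lam (i + 1) - lam i| ≤ 10 * (G * U) := by
    have h1 : ∑ i ∈ range (J - 1), |lam (i + 1) - lam i| ≤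
        ∑ i ∈ range (J - 1), G * (|pf U J (i + 1)| + |pf U J i|) := by
      refine sum_le_sum fun i hi => ?_
      rw [mem_range] at hi
      rw [hlamJ (i + 1) (by omega), hlamJ i (by omega)]
      have e : G * (1 + pf U J (i + 1)) - G * (1 + pf U J i) =
          G * (pf U J (i + 1) - pf U J i) := by ring
      rw [e, abs_mul, abs_of_pos hG]
      exact mul_le_mul_of_nonneg_left (abs_sub _ _) hG.le
    rw [← mul_sum, sum_add_distrib] at h1
    have h2 : ∑ i ∈ range (J - 1), |pf U J (i + 1)| ≤ ∑ j ∈ range J, |pf U J j| := by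
      rcases Nat.eq_zero_or_pos J with h0 | h0
      · subst h0
        simp
      · obtain ⟨J', rfl⟩ : ∃ J', J = J' + 1 := ⟨J - 1, by omega⟩
        rw [Nat.add_sub_cancel, sum_range_succ' (fun j => |pf U (J' + 1) j|)]
        linarith [abs_nonneg (pf U (J' + 1) 0)]
    have h3 : ∑ i ∈ range (J - 1), |pf U J i| ≤ ∑ j ∈ range J, |pf U J j| :=
      sum_le_sum_of_subset_of_nonneg (range_mono (Nat.sub_le _ _)) fun _ _ _ => abs_nonneg _
    have h4 : G * (∑ i ∈ range (J - 1), |pf U J (i + 1)| + ∑ i ∈ range (J - 1), |pf U J i|) ≤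
        G * (10 * U) := mul_le_mul_of_nonneg_left (by linarith) hG.le
    linarith
  obtain ⟨n, n1, n2, n3⟩ := hRnd J lam (11 * (G * U)) hlam0 (fun j hj => by
    have := hlamU j hj
    linarith) (by positivity)
  -- sums
  have hsumlam : ∑ j ∈ range J, lam j = G * (J + ∑ j ∈ range J, pf U J j) := by
    have e : ∑ j ∈ range J, lam j = ∑ j ∈ range J, G * (1 + pf U J j) :=
      sum_congr rfl fun j hj => hlamJ j (mem_range.1 hj)
    rw [e, ← mul_sum, sum_add_distrib]
    simp
  have hsq : ∑ j ∈ range J, lam j * lam j ≤ G ^ 2 * (J + (U : ℝ) ^ 2 / 2 + 20 * U) := by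
    have e : ∑ j ∈ range J, lam j * lam j =
        ∑ j ∈ range J, G ^ 2 * (1 + (2 * pf U J j + pf U J j ^ 2)) := by
      refine sum_congr rfl fun j hj => ?_
      rw [hlamJ j (mem_range.1 hj)]
      ring
    rw [e, ← mul_sum, sum_add_distrib, sum_add_distrib, ← mul_sum]
    refine mul_le_mul_of_nonneg_left ?_ (by positivity)
    have h4 : ∑ j ∈ range J, pf U J j ≤ ∑ j ∈ range J, |pf U J j| :=
      sum_le_sum fun j _ => le_abs_self _
    simp only [sum_const, card_range, nsmul_eq_mul, mul_one]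
    linarith
  have hnsq : ∑ j ∈ range J, (n j : ℝ) ^ 2 ≤
      G ^ 2 * (J + (U : ℝ) ^ 2 / 2 + 20 * U) + 22 * (G * U) + J := by
    have h1 := n3 0
    simp only [Nat.sub_zero, add_zero] at h1
    have e : ∑ j ∈ range J, (n j : ℝ) ^ 2 = ∑ j ∈ range J, (n j : ℝ) * n j :=
      sum_congr rfl fun j _ => by ring
    rw [e]
    linarith
  have hlamJ0 : G * J ≤ ∑ j ∈ range J, lam j := by
    rw [hsumlam]
    exact mul_le_mul_of_nonneg_left (by linarith) hG.le
  -- the pattern
  obtain ⟨S, hS1, hS2, hS3⟩ := hPat l P J W h n hl hP hl5 hlP hb1 hb2 (fun j hj => by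
    have h1 := n1 j hj
    have h2 := hlamU j hj
    have h3 : (n j : ℝ) + h + 2 ≤ ((P / (6 * l) : ℕ) : ℝ) := by linarith
    exact_mod_cast h3) hb4
  have hcard : ∀ j < J, (S j).card = n j := fun j hj => (hS1 j hj).2
  have hcR : ∑ j ∈ range J, ((S j).card : ℝ) = ∑ j ∈ range J, (n j : ℝ) :=
    sum_congr rfl fun j hj => by rw [hcard j (mem_range.1 hj)]
  obtain ⟨p, hp1, hp2, hp3⟩ := hAff P J N S hP hJP (fun j hj => (hS1 j hj).1) hS2 (by
      intro e he
      by_cases heJ : e < J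
      · have h1 : ∑ j ∈ range (J - e), (S j).card * (S (j + e)).card =
            ∑ j ∈ range (J - e), n j * n (j + e) := by
          refine sum_congr rfl fun j hj => ?_
          rw [mem_range] at hj
          rw [hcard j (by omega), hcard (j + e) (by omega)]
        rw [h1]
        have h2 := n3 e
        have h3 : ∑ j ∈ range (J - e), lam j * lam (j + e) ≤ G ^ 2 * J := by
          have e1 : ∑ j ∈ range (J - e), lam j * lam (j + e) =
              G ^ 2 * ∑ j ∈ range (J - e), (1 + pf U J j) * (1 + pf U J (j + e)) := by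
            rw [mul_sum]
            refine sum_congr rfl fun j hj => ?_
            rw [mem_range] at hj
            rw [hlamJ j (by omega), hlamJ (j + e) (by omega)]
            ring
          rw [e1]
          refine mul_le_mul_of_nonneg_left ?_ (by positivity)
          by_cases hc4 : J ≤ 4 * (J - e)
          · exact hRsm U J hGood e he heJ hc4
          · exact hRlg U J hGood e he heJ (by omega)
        have h4 : ((∑ j ∈ range (J - e), n j * n (j + e) : ℕ) : ℝ) ≤ ((P - 1 : ℕ) : ℝ) := by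
          rw [hPr]
          push_cast
          linarith
        exact_mod_cast h4
      · have h1 : J - e = 0 := by omega
        rw [h1]
        simp) (by
      have h1 : ((∑ j ∈ range J, (S j).card * ((S j).card - 1) : ℕ) : ℝ) =
          ∑ j ∈ range J, (n j : ℝ) ^ 2 - ∑ j ∈ range J, (n j : ℝ) := by
        rw [Nat.cast_sum, ← sum_sub_distrib]
        refine sum_congr rfl fun j hj => ?_
        rw [hcard j (mem_range.1 hj), cast_mul_pred]
      have h4 : ((∑ j ∈ range J, (S j).card * ((S j).card - 1) : ℕ) : ℝ) ≤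
          ((P - 1 : ℕ) : ℝ) := by
        rw [hPr, h1]
        linarith
      exact_mod_cast h4) (by
      intro i hi
      have h1 : ((∑ j ∈ range J, (S j).card ^ 2 + 2 * (S i).card : ℕ) : ℝ) =
          ∑ j ∈ range J, (n j : ℝ) ^ 2 + 2 * n i := by
        push_cast
        rw [hcard i hi]
        congr 1
        refine sum_congr rfl fun j hj => ?_
        rw [hcard j (mem_range.1 hj)]
      have h2 := n1 i hi
      have h3 := hlamU i hi
      have h4 : ((∑ j ∈ range J, (S j).card ^ 2 + 2 * (S i).card : ℕ) : ℝ) ≤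
          ((2 * (P - 1) : ℕ) : ℝ) := by
        rw [Nat.cast_mul, hPr, h1]
        push_cast
        linarith
      exact_mod_cast h4)
  refine ⟨p, hp1, ?_, ?_⟩
  · intro A hA x
    obtain ⟨u, v, hu, huP, hvP, rfl⟩ := hp3 A hA
    have h1 := hLoc P J W S hP (fun j hj => (hS1 j hj).1) hS3 u v hu huP hvP x
    refine sidonF_mono ?_ h1
    intro a ha
    rw [mem_filter] at ha ⊢
    refine ⟨ha.1, ha.2.1, ?_⟩
    have h2 : (a : ℝ) ≤ ((x + W * P : ℕ) : ℝ) := by
      push_cast
      linarith [ha.2.2]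
    exact_mod_cast h2
  · rw [hp2, hcR]
    refine a4.trans (le_trans ?_ n2)
    rw [hsumlam]
    have h1 : G * (J + 2 * ((U : ℝ) - 1) / 3 - 1) ≤ G * (J + ∑ j ∈ range J, pf U J j) :=
      mul_le_mul_of_nonneg_left (by linarith) hG.le
    linarith

end Pool.Agent.SBV
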