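import Pool.Agent.SBV.St

/-!
# Coincidences modulo `P`
-/

set_option autoImplicit false

open Finset

namespace Pool.Agent.SBV

namespace Coix

/-- A set of numbers below `n`, all congruent modulo `l`, has at most `n / l + 1` elements. -/
lemma card_class (l n : ℕ) (F : Finset ℕ) (hF : ∀ k ∈ F, k < n)
    (h : ∀ k ∈ F, ∀ k' ∈ F, k % l = k' % l) : F.card ≤ n / l + 1 := by
  have h1 : F.card ≤ (range (n / l + 1)).card := by
    apply Finset.card_le_card_of_injOn (fun k => k / l)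
    · intro k hk
      rw [Finset.mem_coe, Finset.mem_range]
      have h2 : k / l ≤ n / l := Nat.div_le_div_right (hF k hk).le
      exact Nat.lt_succ_of_le h2
    · intro k hk k' hk' hkk
      have h2 : k / l = k' / l := hkk
      have h3 := h k hk k' hk'
      rw [← Nat.div_add_mod k l, ← Nat.div_add_mod k' l, h2, h3]
  rwa [Finset.card_range] at h1

end Coix

open Coix in
theorem thm_Coi : St_Coi := by
  intro l P n hl hP hl5 hlP hnP e he
  have hl0 : 0 < l := by omega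
  have hlZ : Prime (l : ℤ) := Nat.prime_iff_prime_int.1 hl
  have hPZ : Prime (P : ℤ) := Nat.prime_iff_prime_int.1 hP
  have hsmall : ∀ m : ℕ, ∀ x : ℤ, (m : ℤ) ∣ x → -(m : ℤ) < x → x < m → x = 0 := by
    intro m x hx h5 h6
    apply Int.eq_zero_of_abs_lt_dvd hx
    rw [abs_lt]
    exact ⟨h5, h6⟩
  apply card_class
  · intro k hk
    exact Finset.mem_range.1 (Finset.mem_filter.1 hk).1
  · intro k1 hk1 k2 hk2
    rw [Finset.mem_filter, Finset.mem_range] at hk1 hk2
    obtain ⟨hk1n, m1, hm1, h1⟩ := hk1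
    obtain ⟨hk2n, m2, hm2, h2⟩ := hk2
    unfold zz at h1 h2
    have d1 := Nat.div_add_mod (k1 * k1) l
    have d2 := Nat.div_add_mod (k2 * k2) l
    have d3 := Nat.div_add_mod (m1 * m1) l
    have d4 := Nat.div_add_mod (m2 * m2) l
    have r1 := Nat.mod_lt (k1 * k1) hl0
    have r2 := Nat.mod_lt (k2 * k2) hl0
    have r3 := Nat.mod_lt (m1 * m1) hl0
    have r4 := Nat.mod_lt (m2 * m2) hl0
    set q1 := k1 * k1 % l with hq1
    set q2 := k2 * k2 % l with hq2
    set q3 := m1 * m1 % l with hq3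
    set q4 := m2 * m2 % l with hq4
    have z1 : 6 * (l : ℤ) * m1 + 3 * q3 = 6 * l * k1 + 3 * q1 + e * P := by exact_mod_cast h1
    have z2 : 6 * (l : ℤ) * m2 + 3 * q4 = 6 * l * k2 + 3 * q2 + e * P := by exact_mod_cast h2
    have c1 : (l : ℤ) * ((k1 * k1 / l : ℕ) : ℤ) + q1 = k1 * k1 := by exact_mod_cast d1
    have c2 : (l : ℤ) * ((k2 * k2 / l : ℕ) : ℤ) + q2 = k2 * k2 := by exact_mod_cast d2
    have c3 : (l : ℤ) * ((m1 * m1 / l : ℕ) : ℤ) + q3 = m1 * m1 := by exact_mod_cast d3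
    have c4 : (l : ℤ) * ((m2 * m2 / l : ℕ) : ℤ) + q4 = m2 * m2 := by exact_mod_cast d4
    -- the index differences agree
    have hz : 2 * (l : ℤ) * (((m1 : ℤ) - k1) - (m2 - k2)) + ((q3 : ℤ) - q1 - (q4 - q2)) = 0 := by
      linarith
    have hK : ((m1 : ℤ) - k1) - (m2 - k2) = 0 := by
      by_contra hne
      have hQ1 : (q3 : ℤ) - q1 - (q4 - q2) < 2 * l := by omega
      have hQ2 : -(2 * (l : ℤ)) < (q3 : ℤ) - q1 - (q4 - q2) := by omega
      rcases lt_or_gt_of_ne hne with h5 | h5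
      · have h6 : ((m1 : ℤ) - k1) - (m2 - k2) ≤ -1 := by omega
        nlinarith
      · have h6 : 1 ≤ ((m1 : ℤ) - k1) - (m2 - k2) := by omega
        nlinarith
    have hQ : (q3 : ℤ) - q1 - (q4 - q2) = 0 := by
      rw [hK] at hz
      linarith
    have hdvd : (l : ℤ) ∣ 2 * (((m1 : ℤ) - k1) * ((k1 : ℤ) - k2)) := by
      refine ⟨((m1 * m1 / l : ℕ) : ℤ) - ((k1 * k1 / l : ℕ) : ℤ) - ((m2 * m2 / l : ℕ) : ℤ)
        + ((k2 * k2 / l : ℕ) : ℤ), ?_⟩
      have e1 : (m2 : ℤ) = m1 - k1 + k2 := by linarith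
      have e2 : (l : ℤ) * (((m1 * m1 / l : ℕ) : ℤ) - ((k1 * k1 / l : ℕ) : ℤ)
          - ((m2 * m2 / l : ℕ) : ℤ) + ((k2 * k2 / l : ℕ) : ℤ))
          = m1 * m1 - k1 * k1 - m2 * m2 + k2 * k2 := by linear_combination c3 - c1 - c4 + c2 - hQ
      rw [e2, e1]
      ring
    rcases hlZ.dvd_or_dvd hdvd with h5 | h5
    · exfalso
      have := hsmall l 2 h5 (by omega) (by omega)
      omega
    rcases hlZ.dvd_or_dvd h5 with h6 | h6
    · -- the index difference is a multiple of `l`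
      exfalso
      have h7 : (l : ℤ) ∣ (q3 : ℤ) - q1 := by
        obtain ⟨y, hy⟩ := h6
        refine ⟨(m1 + k1) * y - ((m1 * m1 / l : ℕ) : ℤ) + ((k1 * k1 / l : ℕ) : ℤ), ?_⟩
        have e3 : (m1 : ℤ) * m1 - k1 * k1 = (m1 + k1) * (l * y) := by rw [← hy]; ring
        linear_combination c3 - c1 + e3
      have h8 := hsmall l _ h7 (by omega) (by omega)
      have h9 : 6 * (l : ℤ) * ((m1 : ℤ) - k1) = e * P := by linarith
      have h10 : (P : ℤ) ∣ 6 * (l : ℤ) * ((m1 : ℤ) - k1) := ⟨e, by rw [h9]; ring⟩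
      rcases hPZ.dvd_or_dvd h10 with h11 | h11
      · have := hsmall P (6 * (l : ℤ)) h11 (by omega) (by omega)
        omega
      · have h12 := hsmall P _ h11 (by omega) (by omega)
        rw [h12, mul_zero] at h9
        have h13 : (0 : ℤ) < e * P := by
          have h14 : (0 : ℤ) < e := by omega
          have h15 : (0 : ℤ) < P := by omega
          positivity
        omega
    · -- the indices are congruent
      have h7 : k2 ≡ k1 [MOD l] := (Nat.modEq_iff_dvd).2 h6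
      exact h7.symm

end Pool.Agent.SBV
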