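import Pool.Agent.SBV.St

/-!
# The progression `zz` is Sidon in windows
-/

set_option autoImplicit false

open Finset

namespace Pool.Agent.SBV

theorem thm_Ets : St_Ets := by
  intro l hl hl5 a k1 k2 k3 k4 h1 h1' h2 h2' h3 h3' h4 h4' h
  have hl0 : 0 < l := by omega
  unfold zz at h
  -- quotient and remainder of the squares
  have d1 := Nat.div_add_mod (k1 * k1) l
  have d2 := Nat.div_add_mod (k2 * k2) l
  have d3 := Nat.div_add_mod (k3 * k3) l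
  have d4 := Nat.div_add_mod (k4 * k4) l
  have r1 := Nat.mod_lt (k1 * k1) hl0
  have r2 := Nat.mod_lt (k2 * k2) hl0
  have r3 := Nat.mod_lt (k3 * k3) hl0
  have r4 := Nat.mod_lt (k4 * k4) hl0
  set q1 := k1 * k1 % l with hq1
  set q2 := k2 * k2 % l with hq2
  set q3 := k3 * k3 % l with hq3
  set q4 := k4 * k4 % l with hq4
  -- the linear parts agree
  have hz : 2 * (l : ℤ) * ((k1 : ℤ) + k4 - k2 - k3) + ((q1 : ℤ) + q4 - q2 - q3) = 0 := by
    have h' : ((6 * l * k1 + 3 * q1 + (6 * l * k4 + 3 * q4) : ℕ) : ℤ)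
        = ((6 * l * k2 + 3 * q2 + (6 * l * k3 + 3 * q3) : ℕ) : ℤ) := by exact_mod_cast h
    push_cast at h'
    linarith
  have hK : (k1 : ℤ) + k4 - k2 - k3 = 0 := by
    by_contra hne
    have hQ1 : (q1 : ℤ) + q4 - q2 - q3 < 2 * l := by omega
    have hQ2 : -(2 * (l : ℤ)) < (q1 : ℤ) + q4 - q2 - q3 := by omega
    rcases lt_or_gt_of_ne hne with h5 | h5
    · have h6 : (k1 : ℤ) + k4 - k2 - k3 ≤ -1 := by omega
      nlinarith
    · have h6 : 1 ≤ (k1 : ℤ) + k4 - k2 - k3 := by omega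
      nlinarith
  have hQ : (q1 : ℤ) + q4 - q2 - q3 = 0 := by
    rw [hK] at hz
    linarith
  -- the quadratic relation
  have hdvd : (l : ℤ) ∣ 2 * (((k1 : ℤ) - k2) * ((k2 : ℤ) - k4)) := by
    have e1 : (k3 : ℤ) = k1 + k4 - k2 := by linarith
    refine ⟨(((k1 * k1 / l : ℕ) : ℤ)) + ((k4 * k4 / l : ℕ) : ℤ) - ((k2 * k2 / l : ℕ) : ℤ)
      - ((k3 * k3 / l : ℕ) : ℤ), ?_⟩
    have c1 : (l : ℤ) * ((k1 * k1 / l : ℕ) : ℤ) + q1 = k1 * k1 := by exact_mod_cast d1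
    have c2 : (l : ℤ) * ((k2 * k2 / l : ℕ) : ℤ) + q2 = k2 * k2 := by exact_mod_cast d2
    have c3 : (l : ℤ) * ((k3 * k3 / l : ℕ) : ℤ) + q3 = k3 * k3 := by exact_mod_cast d3
    have c4 : (l : ℤ) * ((k4 * k4 / l : ℕ) : ℤ) + q4 = k4 * k4 := by exact_mod_cast d4
    have c5 : (l : ℤ) * (((k1 * k1 / l : ℕ) : ℤ) + ((k4 * k4 / l : ℕ) : ℤ)
        - ((k2 * k2 / l : ℕ) : ℤ) - ((k3 * k3 / l : ℕ) : ℤ))
        = k1 * k1 + k4 * k4 - k2 * k2 - k3 * k3 := by linear_combination c1 + c4 - c2 - c3 - hQ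
    rw [c5, e1]
    ring
  have hlZ : Prime (l : ℤ) := Nat.prime_iff_prime_int.1 hl
  have hsmall : ∀ x : ℤ, (l : ℤ) ∣ x → -(l : ℤ) < x → x < l → x = 0 := by
    intro x hx h5 h6
    apply Int.eq_zero_of_abs_lt_dvd hx
    rw [abs_lt]
    exact ⟨h5, h6⟩
  rcases hlZ.dvd_or_dvd hdvd with h5 | h5
  · exfalso
    have := hsmall 2 h5 (by omega) (by omega)
    omega
  · rcases hlZ.dvd_or_dvd h5 with h6 | h6
    · have := hsmall _ h6 (by omega) (by omega)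
      left
      omega
    · have := hsmall _ h6 (by omega) (by omega)
      right
      omega

end Pool.Agent.SBV
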