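import Pool.Agent.SBV.St

/-!
# The local Sidon property
-/

set_option autoImplicit false

open Finset

namespace Pool.Agent.SBV

namespace Locx

lemma mem_img (P J : ℕ) (S : ℕ → Finset ℕ) (u v a : ℕ) (h : a ∈ img P J S u v) :
    ∃ j t, j < J ∧ t ∈ S j ∧ a = j * P + 1 + (u * t + v) % P := by
  simp only [img, Finset.mem_biUnion, Finset.mem_image, Finset.mem_range] at h
  obtain ⟨j, hj, t, ht, h⟩ := h
  exact ⟨j, t, hj, ht, h.symm⟩

/-- Cells of an interval. -/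
lemma cell_le (P W x j k a b : ℕ) (hP : 0 < P) (ha : j * P < a) (ha' : a ≤ x + W * P)
    (hb : x ≤ b) (hb' : b ≤ (k + 1) * P) : j ≤ k + W := by
  by_contra h
  have h1 : (k + W + 1) * P ≤ j * P := Nat.mul_le_mul_right P (by omega)
  have h2 : (k + W + 1) * P = (k + 1) * P + W * P := by ring
  omega

end Locx

open Locx in
theorem thm_Loc : St_Loc := by
  intro P J W S hP _ hT u v hu huP _ x a ha b hb c hc d hd habcd
  have hP0 := hP.pos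
  rw [Finset.mem_filter] at ha hb hc hd
  obtain ⟨j1, t1, hj1, ht1, e1⟩ := mem_img P J S u v a ha.1
  obtain ⟨j4, t4, hj4, ht4, e4⟩ := mem_img P J S u v b hb.1
  obtain ⟨j2, t2, hj2, ht2, e2⟩ := mem_img P J S u v c hc.1
  obtain ⟨j3, t3, hj3, ht3, e3⟩ := mem_img P J S u v d hd.1
  have m1 := Nat.mod_lt (u * t1 + v) hP0
  have m2 := Nat.mod_lt (u * t2 + v) hP0
  have m3 := Nat.mod_lt (u * t3 + v) hP0
  have m4 := Nat.mod_lt (u * t4 + v) hP0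
  have q1 := Nat.div_add_mod (u * t1 + v) P
  have q2 := Nat.div_add_mod (u * t2 + v) P
  have q3 := Nat.div_add_mod (u * t3 + v) P
  have q4 := Nat.div_add_mod (u * t4 + v) P
  set r1 := (u * t1 + v) % P with hr1
  set r2 := (u * t2 + v) % P with hr2
  set r3 := (u * t3 + v) % P with hr3
  set r4 := (u * t4 + v) % P with hr4
  have s1 : (j1 + 1) * P = j1 * P + P := by ring
  have s2 : (j2 + 1) * P = j2 * P + P := by ring
  have s3 : (j3 + 1) * P = j3 * P + P := by ring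
  have s4 : (j4 + 1) * P = j4 * P + P := by ring
  have key : ∀ j k y z : ℕ, j * P < y → y ≤ x + W * P → x ≤ z → z ≤ (k + 1) * P → j ≤ k + W :=
    fun j k y z h1 h2 h3 h4 => cell_le P W x j k y z hP0 h1 h2 h3 h4
  have c1 : j1 * P < a ∧ a ≤ (j1 + 1) * P := by omega
  have c4 : j4 * P < b ∧ b ≤ (j4 + 1) * P := by omega
  have c2 : j2 * P < c ∧ c ≤ (j2 + 1) * P := by omega
  have c3 : j3 * P < d ∧ d ≤ (j3 + 1) * P := by omega
  -- the smallest cell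
  obtain ⟨j0, hj01, hj02, hj03, hj04, hj0⟩ : ∃ j0, j0 ≤ j1 ∧ j0 ≤ j2 ∧ j0 ≤ j3 ∧ j0 ≤ j4 ∧
      (j0 = j1 ∨ j0 = j2 ∨ j0 = j3 ∨ j0 = j4) :=
    ⟨min (min j1 j2) (min j3 j4), by omega, by omega, by omega, by omega, by omega⟩
  have hz : ∃ z, x ≤ z ∧ z ≤ (j0 + 1) * P := by
    rcases hj0 with rfl | rfl | rfl | rfl
    · exact ⟨a, ha.2.1, c1.2⟩
    · exact ⟨c, hc.2.1, c2.2⟩
    · exact ⟨d, hd.2.1, c3.2⟩
    · exact ⟨b, hb.2.1, c4.2⟩
  obtain ⟨z, hz1, hz2⟩ := hz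
  have w1 := key j1 j0 a z c1.1 ha.2.2 hz1 hz2
  have w4 := key j4 j0 b z c4.1 hb.2.2 hz1 hz2
  have w2 := key j2 j0 c z c2.1 hc.2.2 hz1 hz2
  have w3 := key j3 j0 d z c3.1 hd.2.2 hz1 hz2
  -- the relation
  have hrel : ((j1 : ℤ) - j2 - j3 + j4) * P + ((r1 : ℤ) - r2 - r3 + r4) = 0 := by
    have h1 : ((a + b : ℕ) : ℤ) = ((c + d : ℕ) : ℤ) := by exact_mod_cast habcd
    rw [e1, e2, e3, e4] at h1
    push_cast at h1
    linarith
  have hPZ : (0 : ℤ) < P := by exact_mod_cast hP0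
  have hdel : |(j1 : ℤ) - j2 - j3 + j4| ≤ 1 := by
    rw [abs_le]
    constructor
    · by_contra h
      have h1 : (j1 : ℤ) - j2 - j3 + j4 ≤ -2 := by omega
      have h2 : ((j1 : ℤ) - j2 - j3 + j4) * P ≤ -2 * P := mul_le_mul_of_nonneg_right h1 hPZ.le
      omega
    · by_contra h
      have h1 : 2 ≤ (j1 : ℤ) - j2 - j3 + j4 := by omega
      have h2 : 2 * (P : ℤ) ≤ ((j1 : ℤ) - j2 - j3 + j4) * P := mul_le_mul_of_nonneg_right h1 hPZ.le
      omega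
  have hdvd : (P : ℤ) ∣ (u : ℤ) * ((t1 : ℤ) - t2 - t3 + t4) := by
    have f1 : (P : ℤ) * (((u * t1 + v) / P : ℕ) : ℤ) + r1 = u * t1 + v := by exact_mod_cast q1
    have f2 : (P : ℤ) * (((u * t2 + v) / P : ℕ) : ℤ) + r2 = u * t2 + v := by exact_mod_cast q2
    have f3 : (P : ℤ) * (((u * t3 + v) / P : ℕ) : ℤ) + r3 = u * t3 + v := by exact_mod_cast q3
    have f4 : (P : ℤ) * (((u * t4 + v) / P : ℕ) : ℤ) + r4 = u * t4 + v := by exact_mod_cast q4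
    refine ⟨(((u * t1 + v) / P : ℕ) : ℤ) - (((u * t2 + v) / P : ℕ) : ℤ)
      - (((u * t3 + v) / P : ℕ) : ℤ) + (((u * t4 + v) / P : ℕ) : ℤ)
      - ((j1 : ℤ) - j2 - j3 + j4), ?_⟩
    linear_combination -f1 + f2 + f3 - f4 + hrel
  have hPp : Prime (P : ℤ) := Nat.prime_iff_prime_int.1 hP
  have hdvd' : (P : ℤ) ∣ (t1 : ℤ) - t2 - t3 + t4 := by
    rcases hPp.dvd_or_dvd hdvd with h | h
    · exfalso
      have := Int.eq_zero_of_abs_lt_dvd h (by rw [abs_lt]; constructor <;> omega)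
      omega
    · exact h
  rcases hT j0 j1 j2 j3 j4 t1 t2 t3 t4 hj1 hj2 hj3 hj4 hj01 w1 hj02 w2 hj03 w3 hj04 w4
    ht1 ht2 ht3 ht4 hdel hdvd' with ⟨g1, g2, g3, g4⟩ | ⟨g1, g2, g3, g4⟩
  · left
    rw [e1, e2, e3, e4, hr1, hr2, hr3, hr4, g1, g2, g3, g4]
    exact ⟨rfl, rfl⟩
  · right
    rw [e1, e2, e3, e4, hr1, hr2, hr3, hr4, g1, g2, g3, g4]
    exact ⟨rfl, rfl⟩

end Pool.Agent.SBV
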