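import Pool.Agent.SBV.St

/-!
# The parameters `P, J, U, G`
-/

set_option autoImplicit false

namespace Pool.Agent.SBV

open Pool.Agent.SAV

private theorem nua_k (k η : ℝ) (hη : 0 < η) (hη1 : η ≤ 1 / 200) (hk : k * η = 1) :
    0 < k ∧ 200 ≤ k := by
  have hk0 : 0 < k := by
    by_contra h
    have : k * η ≤ 0 := mul_nonpos_of_nonpos_of_nonneg (not_lt.mp h) hη.le
    linarith
  refine ⟨hk0, ?_⟩
  nlinarith

private theorem nua_kX (k X : ℝ) (hk : 200 ≤ k) (hX : 100 * k ^ 3 ≤ X) :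
    200 * k ≤ k ^ 2 ∧ 20000 * k ^ 2 ≤ X ∧ 4000000 * k ≤ X ∧ 0 < X := by
  have h1 : 200 * k ≤ k ^ 2 := by nlinarith
  have h2 : 200 * k ^ 2 ≤ k ^ 3 := by nlinarith [sq_nonneg k]
  exact ⟨h1, by linarith, by linarith, by linarith⟩

private theorem nua_ke (k η e i : ℝ) (hη : 0 < η) (hk : k * η = 1) (hk0 : 0 < k)
    (he1 : η / 2 < e) (he2 : e ≤ η) (hie : i * e = 1) (hi0 : 0 < i) : k ≤ i ∧ i < 2 * k := by
  constructor
  · by_contra h
    have h' := not_le.mp h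
    have h1 : i * e < k * η := by
      calc i * e ≤ i * η := mul_le_mul_of_nonneg_left he2 hi0.le
        _ < k * η := mul_lt_mul_of_pos_right h' hη
    linarith
  · by_contra h
    have h' := not_lt.mp h
    have h1 : (2 * k) * (η / 2) < i * e := by
      calc (2 * k) * (η / 2) ≤ i * (η / 2) := mul_le_mul_of_nonneg_right h' (by linarith)
        _ < i * e := mul_lt_mul_of_pos_left he1 hi0
    have h2 : (2 * k) * (η / 2) = k * η := by ring
    linarith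

private theorem nua_eta (k η X : ℝ) (hη : 0 < η) (hk : k * η = 1) (hX : 100 * k ^ 3 ≤ X) :
    100 * k ^ 2 ≤ η * X := by
  have h2' : η * (100 * k ^ 3) ≤ η * X := mul_le_mul_of_nonneg_left hX hη.le
  have h3 : η * (100 * k ^ 3) = 100 * k ^ 2 := by
    calc η * (100 * k ^ 3) = 100 * k ^ 2 * (k * η) := by ring
      _ = 100 * k ^ 2 := by rw [hk]; ring
  linarith

private theorem nua_PE (k X : ℝ) (hk : 200 ≤ k) (hX : 4000000 * k ≤ X) :
    44 * X + 2 * k * X + 4 ≤ 3 * k * X ∧ 3 * k * X < k ^ 2 * X ^ 2 ∧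
    3 * k * X + 2 * k * X ≤ 2 * X ^ 2 ∧
    X ^ 2 + 2 * k * X + 4 * X ≤ k ^ 2 * X ^ 2 := by
  have hX0 : 0 < X := by linarith
  have hkX : 200 * X ≤ k * X := mul_le_mul_of_nonneg_right hk hX0.le
  have hkX0 : 800 ≤ k * X := by linarith
  have h1 : 3 * (k * X) < (k * X) * (k * X) :=
    mul_lt_mul_of_pos_right (by linarith) (by linarith)
  have hkk : 4000000 * k * X ≤ X * X := mul_le_mul_of_nonneg_right hX hX0.le
  have hXX : 1 * (k * X) ≤ X * (k * X) := mul_le_mul_of_nonneg_right (by linarith) (by linarith)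
  have h4 : 200 * (X * X) ≤ k * (X * X) := mul_le_mul_of_nonneg_right hk (by positivity)
  have h5 : 200 * (k * (X * X)) ≤ k * (k * (X * X)) :=
    mul_le_mul_of_nonneg_right hk (by positivity)
  refine ⟨by linarith, ?_, ?_, ?_⟩
  · linarith [show k ^ 2 * X ^ 2 = (k * X) * (k * X) by ring]
  · linarith [show 2 * X ^ 2 = 2 * (X * X) by ring, show 4000000 * k * X = 4000000 * (k * X) by ring]
  · have h6 : k ^ 2 * X ^ 2 = k * (k * (X * X)) := by ring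
    rw [h6]
    linarith [show X ^ 2 = X * X by ring, show X * (k * X) = k * (X * X) by ring]

private theorem nua_Gu (e i X J : ℝ) (he0 : 0 < e) (he2 : e ≤ 1 / 200) (hi0 : 0 < i) (hX : 10 ≤ X)
    (hie : i * e = 1) (hJ : X * i - 1 ≤ J) : e * X ^ 3 ≤ (e * X + 1) ^ 2 * J := by
  have h2 : (e * X + 1) ^ 2 * (X * i - 1) ≤ (e * X + 1) ^ 2 * J :=
    mul_le_mul_of_nonneg_left hJ (by positivity)
  have h3 : (e * X + 1) ^ 2 * (X * i - 1)
      = (i * e) * e * X ^ 3 + 2 * (i * e) * X ^ 2 + X * i - (e * X + 1) ^ 2 := by ring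
  rw [h3, hie] at h2
  have h4 : (e * X + 1) ^ 2 ≤ X ^ 2 := by
    have : e * X ≤ (1 / 200) * X := mul_le_mul_of_nonneg_right (by linarith) (by linarith)
    apply pow_le_pow_left₀ (by positivity)
    linarith
  have h8 : 0 < X * i := by positivity
  have h9 : 0 ≤ X ^ 2 := by positivity
  linarith

private theorem nua_Gl (e i X J E : ℝ) (hie : i * e = 1) (hJ : J ≤ X * i)
    (hE : E + X * i ≤ 2 * X ^ 2) : (e * X - 1) ^ 2 * J ≤ e * X ^ 3 - E := by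
  have h2 : (e * X - 1) ^ 2 * J ≤ (e * X - 1) ^ 2 * (X * i) :=
    mul_le_mul_of_nonneg_left hJ (by positivity)
  have h3 : (e * X - 1) ^ 2 * (X * i)
      = (i * e) * e * X ^ 3 - 2 * (i * e) * X ^ 2 + X * i := by ring
  rw [h3, hie] at h2
  linarith

private theorem nua_GJ (e i X J E k η : ℝ) (he2 : e ≤ η) (hη : 0 < η) (hη1 : η ≤ 1 / 200)
    (hk : 200 ≤ k) (hi0 : 0 < i) (hX0 : 0 < X)
    (hie : i * e = 1) (hJ : X * i - 1 ≤ J) (hE0 : 0 ≤ E) (hEk : E ≤ 3 * k * X)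
    (hXi : X * i ≤ X * (2 * k)) (hEP : 0 ≤ e * X ^ 3 - E) (hηX : 100 * k ^ 2 ≤ η * X) :
    (X ^ 2 - η * X) ^ 2 ≤ (e * X ^ 3 - E) * J := by
  have h2 : (e * X ^ 3 - E) * (X * i - 1) ≤ (e * X ^ 3 - E) * J :=
    mul_le_mul_of_nonneg_left hJ hEP
  have h3 : (e * X ^ 3 - E) * (X * i - 1)
      = (i * e) * X ^ 4 - e * X ^ 3 - E * (X * i) + E := by ring
  rw [h3, hie] at h2
  have h4 : E * (X * i) ≤ (3 * k * X) * (X * (2 * k)) :=
    mul_le_mul hEk hXi (by positivity) (by positivity)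
  have h5 : 100 * k ^ 2 * X ^ 2 ≤ η * X * X ^ 2 :=
    mul_le_mul_of_nonneg_right hηX (by positivity)
  have h8 : e * X ^ 3 ≤ η * X ^ 3 := mul_le_mul_of_nonneg_right he2 (by positivity)
  have h9 : η ^ 2 * X ^ 2 ≤ k ^ 2 * X ^ 2 := by
    apply mul_le_mul_of_nonneg_right _ (by positivity)
    apply pow_le_pow_left₀ hη.le; linarith
  have h10 : (X ^ 2 - η * X) ^ 2 = X ^ 4 - 2 * (η * X ^ 3) + η ^ 2 * X ^ 2 := by ring
  rw [h10]
  have h11 : (3 * k * X) * (X * (2 * k)) = 6 * (k ^ 2 * X ^ 2) := by ring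
  have h12 : η * X * X ^ 2 = η * X ^ 3 := by ring
  have h13 : 0 ≤ k ^ 2 * X ^ 2 := by positivity
  linarith

private theorem nua_U6 (G J U e i X s k : ℝ) (hG : 0 < G) (hU : 0 ≤ U) (he0 : 0 < e)
    (hGu : G ≤ e * X + 1) (hU1 : U + 25 ≤ s * i) (hs2 : s * s = 2) (hs : 1.414 < s) (hie : i * e = 1)
    (hi0 : 0 < i) (hik2 : i ≤ 2 * k) (hX0 : 0 < X) (hX : 20000 * k ^ 2 ≤ X) (hX1 : 1 ≤ X)
    (hJ : X * i - 1 ≤ J) : G ^ 2 * (U ^ 2 / 2 + 20 * U) ≤ G * J := by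
  have h1 : G * (U ^ 2 / 2 + 20 * U) ≤ J := by
    have h2 : U ^ 2 / 2 + 20 * U ≤ i ^ 2 - 5 * (s * i) := by
      have h3 : (U + 20) ^ 2 ≤ (s * i - 5) ^ 2 := by
        apply pow_le_pow_left₀ (by positivity); linarith
      have h4 : (s * i - 5) ^ 2 = (s * s) * i ^ 2 - 10 * (s * i) + 25 := by ring
      rw [h4, hs2] at h3
      linarith [show (U + 20) ^ 2 = U ^ 2 + 40 * U + 400 by ring]
    have h3 : 0 ≤ i ^ 2 - 5 * (s * i) := le_trans (by positivity) h2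
    have h4 : G * (U ^ 2 / 2 + 20 * U) ≤ (e * X + 1) * (i ^ 2 - 5 * (s * i)) := by
      apply mul_le_mul hGu h2 (by positivity) (by positivity)
    have h5 : (e * X + 1) * (i ^ 2 - 5 * (s * i))
        = (i * e) * (X * i) - 5 * s * X * (i * e) + i ^ 2 - 5 * (s * i) := by ring
    rw [h5, hie] at h4
    have h6 : i ^ 2 ≤ 4 * k ^ 2 := by
      have : i ^ 2 ≤ (2 * k) ^ 2 := pow_le_pow_left₀ hi0.le hik2 2
      linarith [show (2 * k) ^ 2 = 4 * k ^ 2 by ring]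
    have h7 : 7 * X ≤ 5 * s * X := mul_le_mul_of_nonneg_right (by linarith) hX0.le
    have h8 : 0 < s * i := by linarith
    linarith
  calc G ^ 2 * (U ^ 2 / 2 + 20 * U) = G * (G * (U ^ 2 / 2 + 20 * U)) := by ring
    _ ≤ G * J := mul_le_mul_of_nonneg_left h1 hG.le

private theorem nua_GU (G U e i X s : ℝ) (hU : 0 ≤ U) (he0 : 0 < e)
    (hGu : G ≤ e * X + 1) (hU1 : U + 25 ≤ s * i) (hs : s < 1.415) (hie : i * e = 1)
    (hi0 : 0 < i) (hX0 : 0 < X) (hiX : i ≤ X / 100) : G * U ≤ 2 * X := by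
  have h1 : G * U ≤ (e * X + 1) * (s * i - 25) := by
    apply mul_le_mul hGu (by linarith) hU (by positivity)
  have h2 : (e * X + 1) * (s * i - 25) = s * X * (i * e) + s * i - 25 * (e * X) - 25 := by ring
  rw [h2, hie] at h1
  have h3 : s * i ≤ 1.415 * i := mul_le_mul_of_nonneg_right hs.le hi0.le
  have h4 : s * X ≤ 1.415 * X := mul_le_mul_of_nonneg_right hs.le hX0.le
  have h5 : 0 < e * X := by positivity
  linarith

private theorem nua_mean (G J U e i X s η ε k : ℝ) (hG : 0 < G)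
    (hGl : e * X - 1 ≤ G) (hGJ : X ^ 2 - η * X ≤ G * J) (hU2 : s * i < U + 26)
    (hsi : 282 ≤ s * i) (hsk : s * i ≤ 3 * k) (hie : i * e = 1)
    (hX0 : 0 < X) (he2 : e ≤ η) (hη2 : 30 * η ≤ ε) (hkX : 100 * k ^ 2 ≤ η * X) (hk : 200 ≤ k) :
    X ^ 2 + (2 * s / 3 - ε) * X ≤ G * (J + 2 * (U - 1) / 3 - 1) - 1 := by
  have h1 : 2 * (s * i) / 3 - 19 ≤ 2 * (U - 1) / 3 - 1 := by linarith
  have h2 : (e * X - 1) * (2 * (s * i) / 3 - 19) ≤ G * (2 * (U - 1) / 3 - 1) := by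
    apply mul_le_mul hGl h1 (by linarith) hG.le
  have h3 : (e * X - 1) * (2 * (s * i) / 3 - 19)
      = 2 * s / 3 * X * (i * e) - 19 * (e * X) - 2 * (s * i) / 3 + 19 := by ring
  rw [h3, hie] at h2
  have h4 : e * X ≤ η * X := mul_le_mul_of_nonneg_right he2 hX0.le
  have h5 : 30 * η * X ≤ ε * X := mul_le_mul_of_nonneg_right hη2 hX0.le
  have h8 : G * (J + 2 * (U - 1) / 3 - 1) = G * J + G * (2 * (U - 1) / 3 - 1) := by
    ring
  have h9 : 200 * k ≤ k ^ 2 := by nlinarith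
  have h10 : X ^ 2 + (2 * s / 3 - ε) * X = X ^ 2 + 2 * s / 3 * X - ε * X := by ring
  rw [h8, h10]
  linarith

private theorem nua_hJ (U J s i X : ℝ) (hU : 0 ≤ U) (hU1 : U + 25 ≤ s * i) (hs2 : s * s = 2)
    (hi0 : 0 < i) (hJ : X * i - 1 ≤ J) (hiX : i ≤ X / 100) :
    U ^ 2 + 50 * U ≤ 2 * J := by
  have h1 : (U + 25) ^ 2 ≤ (s * i) ^ 2 := pow_le_pow_left₀ (by positivity) hU1 2
  have h2 : (s * i) ^ 2 = (s * s) * i ^ 2 := by ring
  rw [h2, hs2] at h1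
  have h3 : i * i ≤ X / 100 * i := mul_le_mul_of_nonneg_right hiX hi0.le
  have h4 : 0 ≤ i * i := by positivity
  linarith [show (U + 25) ^ 2 = U ^ 2 + 50 * U + 625 by ring, show i ^ 2 = i * i by ring,
    show X / 100 * i = X * i / 100 by ring]

private theorem nua_core (ε η : ℝ) (hη : 0 < η) (hη1 : η ≤ 1 / 200) (hη2 : 30 * η ≤ ε)
    (X k : ℝ) (hk : k * η = 1) (hX : 100 * k ^ 3 ≤ X) (N P : ℕ) (hN : (N : ℝ) = X ^ 4)
    (hP1 : η * X ^ 3 / 2 < P) (hP2 : (P : ℝ) ≤ η * X ^ 3) :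
    ∃ (J U : ℕ) (G : ℝ), 0 < G ∧ J * P ≤ N ∧ Good U J ∧
    (J : ℝ) ≤ 2 * X / η ∧ G * U ≤ 2 * X ∧
    G ^ 2 * J + 22 * (G * U) + J ≤ P - 1 ∧
    G ^ 2 * (J + (U : ℝ) ^ 2 / 2 + 20 * U) + 22 * (G * U) + J - G * J + 1 ≤ P - 1 ∧
    G ^ 2 * (J + (U : ℝ) ^ 2 / 2 + 20 * U) + 22 * (G * U) + J + 2 * (G * U + 1) ≤ 2 * (P - 1) ∧
    X ^ 2 + (2 * √2 / 3 - ε) * X
      ≤ G * (J + 2 * ((U : ℝ) - 1) / 3 - 1) - 1 := by
  obtain ⟨hk0, hk200⟩ := nua_k k η hη hη1 hk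
  obtain ⟨hk2, hXk2, hXk, hX0⟩ := nua_kX k X hk200 hX
  have hX3 : 0 < X ^ 3 := by positivity
  obtain ⟨e, he⟩ : ∃ e : ℝ, e = P / X ^ 3 := ⟨_, rfl⟩
  have hPe : (P : ℝ) = e * X ^ 3 := by rw [he]; field_simp
  have he1 : η / 2 < e := by
    rw [he, lt_div_iff₀ hX3]; linarith
  have he2 : e ≤ η := by
    rw [he, div_le_iff₀ hX3]; exact hP2
  have he0 : 0 < e := by linarith
  obtain ⟨i, hi⟩ : ∃ i : ℝ, i = 1 / e := ⟨_, rfl⟩
  have hie : i * e = 1 := by rw [hi]; field_simp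
  have hi0 : 0 < i := by rw [hi]; positivity
  obtain ⟨hik, hik2⟩ := nua_ke k η e i hη hk hk0 he1 he2 hie hi0
  -- J
  obtain ⟨J, hJ⟩ : ∃ J : ℕ, J = N / P := ⟨_, rfl⟩
  have hPr : (0 : ℝ) < P := by rw [hPe]; positivity
  have hPpos : 0 < P := by exact_mod_cast hPr
  have hJP : J * P ≤ N := by rw [hJ]; exact Nat.div_mul_le_self N P
  have hJP2 : N < (J + 1) * P := by
    rw [hJ]
    have := Nat.lt_succ_iff.mpr (le_refl (N / P))
    exact (Nat.div_lt_iff_lt_mul hPpos).mp this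
  have hX4 : X ^ 4 = (X * i) * (e * X ^ 3) := by
    calc X ^ 4 = (i * e) * X ^ 4 := by rw [hie]; ring
      _ = (X * i) * (e * X ^ 3) := by ring
  have hJX : (J : ℝ) ≤ X * i := by
    have h1 : (J : ℝ) * P ≤ N := by exact_mod_cast hJP
    rw [hN, hX4, ← hPe] at h1
    exact le_of_mul_le_mul_right h1 hPr
  have hJX2 : X * i - 1 < J := by
    have h1 : (N : ℝ) < ((J : ℝ) + 1) * P := by exact_mod_cast hJP2
    rw [hN, hX4, ← hPe] at h1
    have := lt_of_mul_lt_mul_right h1 hPr.le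
    linarith
  have hXi : X * k ≤ X * i := mul_le_mul_of_nonneg_left hik hX0.le
  have hXi2 : X * i ≤ X * (2 * k) := mul_le_mul_of_nonneg_left hik2.le hX0.le
  have hXi3 : X * 200 ≤ X * k := mul_le_mul_of_nonneg_left hk200 hX0.le
  have hJ0 : (0 : ℝ) < J := by linarith
  -- U
  have hs2 : √2 * √2 = 2 := Real.mul_self_sqrt (by norm_num)
  have hs2a : (1.414 : ℝ) < √2 := by
    rw [Real.lt_sqrt (by norm_num)]; norm_num
  have hs2b : √2 < 1.415 := by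
    rw [Real.sqrt_lt' (by norm_num)]; norm_num
  obtain ⟨s, hs⟩ : ∃ s : ℝ, s = √2 := ⟨_, rfl⟩
  rw [← hs] at hs2 hs2a hs2b ⊢
  have hs0 : 0 < s := by linarith
  have hsi0 : 0 ≤ s * i := by positivity
  have hsi1 : 1.414 * i ≤ s * i := mul_le_mul_of_nonneg_right hs2a.le hi0.le
  have hsi2 : s * i ≤ 1.415 * i := mul_le_mul_of_nonneg_right hs2b.le hi0.le
  have hsi : 282 ≤ s * i := by linarith
  have hsk : s * i ≤ 3 * k := by linarith
  have hF1 : 282 ≤ ⌊s * i⌋₊ := by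
    apply Nat.le_floor
    exact_mod_cast hsi
  obtain ⟨U, hU⟩ : ∃ U : ℕ, U + 25 = ⌊s * i⌋₊ := ⟨⌊s * i⌋₊ - 25, by omega⟩
  have hU1 : (U : ℝ) + 25 ≤ s * i := by
    have := Nat.floor_le hsi0
    rw [← hU] at this
    push_cast at this
    exact this
  have hU2 : s * i < (U : ℝ) + 26 := by
    have := Nat.lt_floor_add_one (s * i)
    rw [← hU] at this
    push_cast at this
    linarith
  have hUn : 257 ≤ U := by omega
  have hUr : (0 : ℝ) ≤ U := Nat.cast_nonneg U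
  have hUk : (U : ℝ) ≤ 3 * k := by linarith
  -- E, G
  obtain ⟨E, hE⟩ : ∃ E : ℝ, E = 44 * X + 2 * k * X + 4 := ⟨_, rfl⟩
  have hE0 : 0 < E := by rw [hE]; positivity
  obtain ⟨hEk, hkX2, hkX3, hkX4⟩ := nua_PE k X hk200 hXk
  rw [← hE] at hEk
  have hηX := nua_eta k η X hη hk hX
  have heX : k ^ 2 ≤ e * X := by
    have h1 : η / 2 * X ≤ e * X := mul_le_mul_of_nonneg_right he1.le hX0.le
    have h2 : 0 ≤ k ^ 2 := sq_nonneg k
    linarith
  have hPk : k ^ 2 * X ^ 2 ≤ P := by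
    rw [hPe]
    have h1 : k ^ 2 * X ^ 2 ≤ e * X * X ^ 2 := mul_le_mul_of_nonneg_right heX (by positivity)
    linarith [show e * X * X ^ 2 = e * X ^ 3 by ring]
  have hPE : E < P := by linarith
  obtain ⟨G, hG⟩ : ∃ G : ℝ, G = √((P - E) / J) := ⟨_, rfl⟩
  have hGpos : 0 < G := by
    rw [hG]; apply Real.sqrt_pos.mpr; apply div_pos _ hJ0; linarith
  have hG2 : G ^ 2 * J = P - E := by
    rw [hG, Real.sq_sqrt (div_nonneg (by linarith) hJ0.le)]
    field_simp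
  have heX0 : 0 < e * X := by positivity
  have hGu : G ≤ e * X + 1 := by
    have h0 := nua_Gu e i X J he0 (by linarith) hi0 (by linarith) hie hJX2.le
    have h1 : G ^ 2 * J ≤ (e * X + 1) ^ 2 * J := by
      rw [hG2, hPe]; linarith
    exact le_of_sq_le_sq (le_of_mul_le_mul_right h1 hJ0) (by positivity)
  have hGl : e * X - 1 ≤ G := by
    have h0 := nua_Gl e i X J E hie hJX (by linarith)
    have h1 : (e * X - 1) ^ 2 * J ≤ G ^ 2 * J := by
      rw [hG2, hPe]; exact h0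
    exact (abs_le_of_sq_le_sq' (le_of_mul_le_mul_right h1 hJ0) hGpos.le).2
  have hGJ : X ^ 2 - η * X ≤ G * J := by
    have h0 := nua_GJ e i X J E k η he2 hη hη1 hk200 hi0 hX0 hie hJX2.le hE0.le hEk hXi2
      (by rw [← hPe]; linarith) hηX
    have h1 : (X ^ 2 - η * X) ^ 2 ≤ (G * J) ^ 2 := by
      calc (X ^ 2 - η * X) ^ 2 ≤ (e * X ^ 3 - E) * J := h0
        _ = (G ^ 2 * J) * J := by rw [hG2, hPe]
        _ = (G * J) ^ 2 := by ring
    exact (abs_le_of_sq_le_sq' h1 (by positivity)).2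
  have hiX : i ≤ X / 100 := by linarith
  have hGU := nua_GU G U e i X s hUr he0 hGu hU1 hs2b hie hi0 hX0 hiX
  have hJη : (J : ℝ) ≤ 2 * k * X := by linarith
  have h5 : G ^ 2 * J + 22 * (G * U) + J ≤ P - 4 := by
    rw [hG2, hE]; linarith
  have h6 := nua_U6 G J U e i X s k hGpos hUr he0 hGu hU1 hs2 hs2a hie hi0 hik2.le hX0 hXk2
    (by linarith) hJX2.le
  have hGJu : G * J ≤ X ^ 2 + 2 * k * X := by
    have h1 : G * J ≤ (e * X + 1) * (X * i) := mul_le_mul hGu hJX hJ0.le (by positivity)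
    have h2 : (e * X + 1) * (X * i) = (i * e) * X ^ 2 + X * i := by ring
    rw [h2, hie] at h1
    linarith
  have hPbig : X ^ 2 + 2 * k * X + 4 * X ≤ P := by linarith
  refine ⟨J, U, G, hGpos, hJP, ⟨by omega, ?_, ?_⟩, ?_, hGU, by linarith, ?_, ?_, ?_⟩
  · have h4 := nua_hJ U J s i X hUr hU1 hs2 hi0 hJX2.le hiX
    exact_mod_cast h4
  · have h1 : 21 * U ≤ (J / 8 - 2) / U := by
      rw [Nat.le_div_iff_mul_le (by omega)]
      have h2 : (21 * (U : ℝ) * U + 2) * 8 ≤ J := by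
        have h3 : (U : ℝ) * U ≤ (3 * k) * (3 * k) := mul_le_mul hUk hUk hUr (by positivity)
        have h4 : (3 * k) * (3 * k) = 9 * k ^ 2 := by ring
        linarith
      have h3 : (21 * U * U + 2) * 8 ≤ J := by exact_mod_cast h2
      have h4 : 21 * U * U + 2 ≤ J / 8 := by
        rw [Nat.le_div_iff_mul_le (by norm_num)]; exact h3
      omega
    calc 21 * U ≤ (J / 8 - 2) / U := h1
      _ ≤ 2 ^ ((J / 8 - 2) / U) := (Nat.lt_two_pow_self).le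
  · have : 2 * X / η = 2 * k * X := by
      rw [div_eq_iff hη.ne']
      calc 2 * X = 2 * X * (k * η) := by rw [hk]; ring
        _ = 2 * k * X * η := by ring
    rw [this]; exact hJη
  · have h1 : G ^ 2 * (J + (U : ℝ) ^ 2 / 2 + 20 * U)
        = G ^ 2 * J + G ^ 2 * ((U : ℝ) ^ 2 / 2 + 20 * U) := by ring
    rw [h1]; linarith
  · have h1 : G ^ 2 * (J + (U : ℝ) ^ 2 / 2 + 20 * U)
        = G ^ 2 * J + G ^ 2 * ((U : ℝ) ^ 2 / 2 + 20 * U) := by ring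
    rw [h1]; linarith
  · exact nua_mean G J U e i X s η ε k hGpos hGl hGJ hU2 hsi hsk hie hX0 he2 hη2 hηX hk200

theorem thm_Nua : St_Nua := by
  intro ε hε
  refine ⟨min (ε / 30) (1 / 200), lt_min (by positivity) (by norm_num), min_le_right _ _, ?_⟩
  obtain ⟨η, hηd⟩ : ∃ η : ℝ, η = min (ε / 30) (1 / 200) := ⟨_, rfl⟩
  rw [← hηd]
  have hη : 0 < η := by rw [hηd]; exact lt_min (by positivity) (by norm_num)
  have hη1 : η ≤ 1 / 200 := by rw [hηd]; exact min_le_right _ _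
  have hη2 : 30 * η ≤ ε := by
    have : η ≤ ε / 30 := by rw [hηd]; exact min_le_left _ _
    linarith
  obtain ⟨k, hk⟩ : ∃ k : ℝ, k * η = 1 := ⟨1 / η, by field_simp⟩
  obtain ⟨hk0, hk200⟩ := nua_k k η hη hη1 hk
  refine ⟨⌈100 * k ^ 3⌉₊ ^ 4, ?_⟩
  intro N hN
  obtain ⟨X, hXd⟩ : ∃ X : ℝ, X = (N : ℝ) ^ (1 / 4 : ℝ) := ⟨_, rfl⟩
  rw [← hXd]
  have hN0 : (0 : ℝ) ≤ N := Nat.cast_nonneg N
  have hXN : (N : ℝ) = X ^ 4 := by
    rw [hXd, ← Real.rpow_natCast, ← Real.rpow_mul hN0]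
    norm_num
  have hX0 : 0 ≤ X := by rw [hXd]; positivity
  have hX : 100 * k ^ 3 ≤ X := by
    have h1 : (100 * k ^ 3) ^ 4 ≤ X ^ 4 := by
      rw [← hXN]
      calc (100 * k ^ 3) ^ 4 ≤ ((⌈100 * k ^ 3⌉₊ : ℕ) : ℝ) ^ 4 :=
            pow_le_pow_left₀ (by positivity) (Nat.le_ceil _) 4
        _ ≤ (N : ℝ) := by exact_mod_cast hN
    exact le_of_pow_le_pow_left₀ (by norm_num) hX0 h1
  have hXk : 1 ≤ X := by
    have : 1 ≤ k ^ 3 := one_le_pow₀ (by linarith)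
    linarith
  have hsq : √(N : ℝ) = X ^ 2 := by
    rw [hXN, show X ^ 4 = (X ^ 2) ^ 2 by ring]
    exact Real.sqrt_sq (by positivity)
  rw [hsq]
  -- Bertrand
  obtain ⟨n, hn⟩ : ∃ n : ℕ, n = ⌊η * X ^ 3 / 2⌋₊ := ⟨_, rfl⟩
  have hpos : 0 ≤ η * X ^ 3 / 2 := by positivity
  have hn1 : (n : ℝ) ≤ η * X ^ 3 / 2 := by rw [hn]; exact Nat.floor_le hpos
  have hn2 : η * X ^ 3 / 2 < n + 1 := by rw [hn]; exact Nat.lt_floor_add_one _
  have hn0 : n ≠ 0 := by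
    intro h
    rw [h] at hn2
    have h1 := nua_eta k η X hη hk hX
    have h4 : 1 ≤ k ^ 2 := one_le_pow₀ (by linarith)
    have h5 : 1 ≤ X ^ 2 := one_le_pow₀ hXk
    have h6 : 100 ≤ η * X := by linarith
    have h7 : 100 * 1 ≤ η * X * X ^ 2 := mul_le_mul h6 h5 (by norm_num) (by positivity)
    have h8 : η * X * X ^ 2 = η * X ^ 3 := by ring
    norm_num at hn2
    linarith
  obtain ⟨P, hPp, hP1, hP2⟩ := Nat.exists_prime_lt_and_le_two_mul n hn0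
  have hP1' : η * X ^ 3 / 2 < P := by
    have : (n : ℝ) + 1 ≤ P := by exact_mod_cast hP1
    linarith
  have hP2' : (P : ℝ) ≤ η * X ^ 3 := by
    have : (P : ℝ) ≤ 2 * n := by exact_mod_cast hP2
    linarith
  obtain ⟨J, U, G, h1, h2, h3, h4, h5, h6, h7, h8, h9⟩ :=
    nua_core ε η hη hη1 hη2 X k hk hX N P hXN hP1' hP2'
  exact ⟨P, J, U, G, hPp, h1, h2, h3, hP1', hP2', h4, h5, h6, h7, h8, h9⟩

end Pool.Agent.SBV
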