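import Pool.Agent.SBV.St

/-!
# The parameters `l, W, h` (helper88)

With `X = N ^ (1 / 4)`: `l` is a prime with `P < 60 X l` and `30 X l ≤ P`, so `η X ^ 2 < 120 l`.
-/

set_option autoImplicit false

open Finset Filter

namespace Pool.Agent.SBV

theorem thm_Nub : St_Nub := by
  intro η hη0 hη1
  refine ⟨η ^ 2 / 3000, by positivity, ?_⟩
  obtain ⟨C0, hC0⟩ : ∃ C0 : ℝ, C0 = 2400 / η ^ 2 + 3 := ⟨_, rfl⟩
  have hC1 : 1 ≤ C0 := by
    have h : 0 ≤ 2400 / η ^ 2 := by positivity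
    linarith only [h, hC0]
  have ht : Tendsto (fun N : ℕ => (N : ℝ) ^ (1 / 4 : ℝ)) atTop atTop :=
    (tendsto_rpow_atTop (by norm_num)).comp tendsto_natCast_atTop_atTop
  obtain ⟨N0, hN0⟩ := eventually_atTop.1
    (ht.eventually_ge_atTop (4 * C0 ^ 2 / η + 36000 / η + 10))
  refine ⟨N0, fun N P J hN hP hJP hP1 hP2 hJ => ?_⟩
  have hX := hN0 N hN
  obtain ⟨X, hXd⟩ : ∃ X : ℝ, X = (N : ℝ) ^ (1 / 4 : ℝ) := ⟨_, rfl⟩
  rw [← hXd] at hX hP1 hP2 hJ ⊢
  have hXN : X ^ 4 = N := by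
    rw [hXd, ← Real.rpow_natCast, ← Real.rpow_mul (Nat.cast_nonneg _)]
    norm_num
  have g1 : 0 ≤ 4 * C0 ^ 2 / η := by positivity
  have g2 : 0 ≤ 36000 / η := by positivity
  have hX10 : 10 ≤ X := by linarith only [hX, g1, g2]
  have hXpos : 0 < X := by linarith only [hX10]
  have hXa : 36000 ≤ η * X := by
    have h : 36000 / η ≤ X := by linarith only [hX, g1, g2]
    rw [div_le_iff₀ hη0] at h
    linarith only [h]
  have hXb : 4 * C0 ^ 2 ≤ η * (X - 10) := by
    have h : 4 * C0 ^ 2 / η ≤ X - 10 := by linarith only [hX, g1, g2]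
    rw [div_le_iff₀ hη0] at h
    linarith only [h]
  have hXc : 2400 ≤ η ^ 2 * X := by
    have h1 : C0 ≤ 4 * C0 ^ 2 := by
      have h : C0 * 1 ≤ C0 * C0 := mul_le_mul_of_nonneg_left hC1 (by linarith only [hC1])
      rw [sq]
      linarith only [h, hC1]
    have h2 : 2400 / η ^ 2 ≤ η * X := by
      have h : η * (X - 10) ≤ η * X := mul_le_mul_of_nonneg_left (by linarith only []) hη0.le
      linarith only [h, h1, hXb, hC0]
    rw [div_le_iff₀ (by positivity)] at h2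
    have h3 : η * X * η ^ 2 ≤ 1 * (η ^ 2 * X) := by
      have h4 : η * (η ^ 2 * X) ≤ 1 * (η ^ 2 * X) :=
        mul_le_mul_of_nonneg_right (by linarith only [hη1]) (by positivity)
      linarith only [h4]
    linarith only [h2, h3]
  obtain ⟨p, hp⟩ : ∃ p : ℝ, p = P := ⟨_, rfl⟩
  rw [← hp] at hP1 hP2
  -- the prime `l`
  have hx1 : 1 ≤ p / (60 * X) := by
    rw [le_div_iff₀ (by positivity)]
    have h1 : η * X ^ 3 / 2 = η * X * (X ^ 2) / 2 := by ring
    have h2 : 36000 * X ^ 2 ≤ η * X * X ^ 2 := mul_le_mul_of_nonneg_right hXa (by positivity)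
    have h3 : 10 * X ≤ X ^ 2 := by
      rw [sq]
      exact mul_le_mul_of_nonneg_right hX10 hXpos.le
    linarith only [h1, h2, h3, hP1, hXpos]
  obtain ⟨x, hx⟩ : ∃ x : ℕ, x = ⌊p / (60 * X)⌋₊ := ⟨_, rfl⟩
  have hx0 : x ≠ 0 := by
    have : 1 ≤ x := by
      rw [hx]
      exact Nat.le_floor (by simpa using hx1)
    omega
  obtain ⟨l, hl, hl1, hl2⟩ := Nat.exists_prime_lt_and_le_two_mul x hx0
  have hla : p < 60 * X * l := by
    have h1 : p / (60 * X) < x + 1 := by
      rw [hx]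
      exact Nat.lt_floor_add_one _
    have h2 : (x : ℝ) + 1 ≤ l := by exact_mod_cast hl1
    have h3 : p / (60 * X) < l := lt_of_lt_of_le h1 h2
    rw [div_lt_iff₀ (by positivity)] at h3
    linarith only [h3]
  have hlb : 30 * X * l ≤ p := by
    have h1 : (x : ℝ) ≤ p / (60 * X) := by
      rw [hx]
      exact Nat.floor_le (by linarith only [hx1])
    have h2 : (l : ℝ) ≤ 2 * x := by exact_mod_cast hl2
    rw [le_div_iff₀ (by positivity)] at h1
    have h3 : X * l ≤ X * (2 * x) := mul_le_mul_of_nonneg_left h2 hXpos.le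
    linarith only [h1, h3]
  have hlc : η * X ^ 2 < 120 * l := by
    have h1 : X * (η * X ^ 2) < X * (120 * l) := by
      have e1 : X * (η * X ^ 2) = 2 * (η * X ^ 3 / 2) := by ring
      have e2 : X * (120 * (l : ℝ)) = 2 * (60 * X * l) := by ring
      rw [e1, e2]
      linarith only [hP1, hla]
    exact lt_of_mul_lt_mul_left h1 hXpos.le
  have hl5 : (3000 : ℝ) < l := by
    have h1 : η * X ^ 2 = η * X * X := by ring
    have h2 : 36000 * X ≤ η * X * X := mul_le_mul_of_nonneg_right hXa hXpos.le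
    linarith only [h1, h2, hlc, hX10]
  have hlpos : (0 : ℝ) < l := by linarith only [hl5]
  have hp0 : 0 < p := lt_of_lt_of_le (by positivity) hlb
  -- `n1`
  obtain ⟨n1, hn1⟩ : ∃ n1 : ℕ, n1 = J * P / (6 * l) := ⟨_, rfl⟩
  have hn1' : η * n1 ≤ 20 * X ^ 2 := by
    have h1 : (n1 : ℝ) ≤ (J * P : ℕ) / (6 * l : ℕ) := by
      rw [hn1]
      exact Nat.cast_div_le
    have h2 : ((J * P : ℕ) : ℝ) ≤ X ^ 4 := by
      rw [hXN]
      exact_mod_cast hJP
    rw [le_div_iff₀ (by push_cast; positivity)] at h1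
    push_cast at h1 h2
    have h3 : (n1 : ℝ) * (6 * l) ≤ X ^ 4 := h1.trans h2
    have h4 : η * X ^ 4 ≤ 120 * l * X ^ 2 := by
      have e1 : η * X ^ 4 = η * X ^ 2 * X ^ 2 := by ring
      rw [e1]
      exact mul_le_mul_of_nonneg_right hlc.le (by positivity)
    have h5 : η * n1 * (6 * l) ≤ 20 * X ^ 2 * (6 * l) := by
      calc η * n1 * (6 * l) = η * (n1 * (6 * l)) := by ring
        _ ≤ η * X ^ 4 := mul_le_mul_of_nonneg_left h3 hη0.le
        _ ≤ 120 * l * X ^ 2 := h4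
        _ = 20 * X ^ 2 * (6 * l) := by ring
    exact le_of_mul_le_mul_right h5 (by positivity)
  have hn1P : n1 + 1 ≤ P := by
    have h1 : η * ((n1 : ℝ) + 1) ≤ η * p := by
      have e1 : η * (η * X ^ 3 / 2) = η ^ 2 * X * X ^ 2 / 2 := by ring
      have e2 : 2400 * X ^ 2 ≤ η ^ 2 * X * X ^ 2 := mul_le_mul_of_nonneg_right hXc (by positivity)
      have e3 : η * (η * X ^ 3 / 2) ≤ η * p := mul_le_mul_of_nonneg_left hP1.le hη0.le
      have e4 : 1 ≤ X ^ 2 := one_le_pow₀ (by linarith only [hX10])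
      have e5 : η * ((n1 : ℝ) + 1) = η * n1 + η := by ring
      rw [e5]
      linarith only [e1, e2, e3, e4, hn1', hη1]
    have h2 : (n1 : ℝ) + 1 ≤ P := by
      rw [← hp]
      exact le_of_mul_le_mul_left h1 hη0
    exact_mod_cast h2
  -- `C`
  obtain ⟨C, hC⟩ : ∃ C : ℕ, C = (n1 + 1) / l + 1 := ⟨_, rfl⟩
  have hCC : (C : ℝ) ≤ C0 := by
    have h1 : (((n1 + 1) / l : ℕ) : ℝ) ≤ (n1 + 1 : ℕ) / l := Nat.cast_div_le
    have h2 : ((n1 + 1 : ℕ) : ℝ) / l ≤ 2400 / η ^ 2 + 1 := by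
      rw [div_le_iff₀ hlpos]
      have h3 : (n1 : ℝ) ≤ 2400 / η ^ 2 * l := by
        have h4 : η ^ 2 * n1 ≤ 2400 * l := by
          have h5 : η * (η * n1) ≤ η * (20 * X ^ 2) := mul_le_mul_of_nonneg_left hn1' hη0.le
          have e1 : η ^ 2 * (n1 : ℝ) = η * (η * n1) := by ring
          rw [e1]
          linarith only [h5, hlc]
        rw [div_mul_eq_mul_div, le_div_iff₀ (by positivity)]
        linarith only [h4]
      push_cast
      linarith only [h3, hl5]
    rw [hC, hC0]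
    push_cast
    linarith only [h1, h2]
  -- `W`
  have hW0 : p + 3 * l ≤ 6 * l * l := by
    have h1 : η * X ^ 2 * l ≤ 120 * l * l := mul_le_mul_of_nonneg_right hlc.le hlpos.le
    have h2 : η * X ^ 2 * l = η * X * (X * l) := by ring
    have h3 : 36000 * (X * l) ≤ η * X * (X * l) := mul_le_mul_of_nonneg_right hXa (by positivity)
    have h4 : (l : ℝ) ≤ X * l := le_mul_of_one_le_left hlpos.le (by linarith only [hX10])
    have h5 : 60 * X * (l : ℝ) = 60 * (X * l) := by ring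
    linarith only [h1, h2, h3, h4, h5, hla, hlpos]
  have hW1 : P + 3 * l ≤ 6 * l * l := by
    rw [hp] at hW0
    exact_mod_cast hW0
  obtain ⟨q, hq⟩ : ∃ q : ℕ, q = (6 * l * l - 3 * l) / P := ⟨_, rfl⟩
  have hq1 : 1 ≤ q := by
    rw [hq]
    exact (Nat.one_le_div_iff hP.pos).2 (by omega)
  have hq2 : q * P ≤ 6 * l * l - 3 * l := by
    rw [hq]
    exact Nat.div_mul_le_self _ _
  have hq3 : 6 * l * l - 3 * l < (q + 1) * P := by
    rw [hq, mul_comm _ P]
    exact Nat.lt_mul_div_succ _ hP.pos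
  refine ⟨l, q - 1, ⌊X⌋₊, hl, ?_, ?_, ?_, ?_, ?_, ?_, ?_⟩
  · have h1 : ((5 : ℕ) : ℝ) ≤ l := by
      push_cast
      linarith only [hl5]
    exact_mod_cast h1
  · have h1 : 6 * (l : ℝ) < P := by
      rw [← hp]
      have h2 : 300 * (l : ℝ) ≤ 30 * X * l :=
        mul_le_mul_of_nonneg_right (by linarith only [hX10]) hlpos.le
      linarith only [h2, hlb, hlpos]
    exact_mod_cast h1
  · rw [← hn1]
    exact hn1P
  · intro y hy
    rw [← hn1, ← hC] at hy
    by_contra hcon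
    push Not at hcon
    have h1 : X < y := (Nat.floor_lt hXpos.le).1 hcon
    have hy1 : 1 ≤ y := by
      rcases Nat.eq_zero_or_pos y with h | h
      · rw [h] at h1
        rw [Nat.cast_zero] at h1
        linarith only [h1, hXpos]
      · exact h
    have h2 : (y : ℝ) * (y - 1) ≤ 2 * C * (C * J) := by
      have : ((y * (y - 1) : ℕ) : ℝ) ≤ ((2 * C * (C * J) : ℕ) : ℝ) := by exact_mod_cast hy
      push_cast [Nat.cast_sub hy1] at this
      exact this
    have h3 : (2 : ℝ) * C * (C * J) ≤ X * (X - 10) := by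
      have hC0p : (0 : ℝ) ≤ C := Nat.cast_nonneg _
      have e1 : (C : ℝ) * C ≤ C0 * C0 := mul_le_mul hCC hCC hC0p (by linarith only [hC1])
      have e2 : (C : ℝ) * C * J ≤ C0 * C0 * (2 * X / η) :=
        mul_le_mul e1 hJ (Nat.cast_nonneg _) (by positivity)
      have e3 : 2 * (C0 * C0 * (2 * X / η)) = 4 * C0 ^ 2 * X / η := by ring
      have e4 : 4 * C0 ^ 2 * X / η ≤ X * (X - 10) := by
        rw [div_le_iff₀ hη0]
        calc 4 * C0 ^ 2 * X ≤ η * (X - 10) * X := mul_le_mul_of_nonneg_right hXb hXpos.le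
          _ = X * (X - 10) * η := by ring
      calc (2 : ℝ) * C * (C * J) = 2 * (C * C * J) := by ring
        _ ≤ 2 * (C0 * C0 * (2 * X / η)) := mul_le_mul_of_nonneg_left e2 (by norm_num)
        _ = 4 * C0 ^ 2 * X / η := e3
        _ ≤ _ := e4
    have h4 : X * (X - 10) < (y : ℝ) * (y - 1) := by
      have e1 : X * (X - 10) ≤ y * (X - 10) :=
        mul_le_mul_of_nonneg_right h1.le (by linarith only [hX10])
      have e2 : (y : ℝ) * (X - 10) < y * (y - 1) :=
        mul_lt_mul_of_pos_left (by linarith only [h1]) (by linarith only [h1, hXpos])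
      linarith only [e1, e2]
    linarith only [h2, h3, h4]
  · have h1 : (⌊X⌋₊ : ℝ) ≤ X := Nat.floor_le hXpos.le
    have h2 : P < 6 * l * (P / (6 * l) + 1) :=
      Nat.lt_mul_div_succ P (by omega)
    have h3 : (P : ℝ) < 6 * l * (((P / (6 * l) : ℕ) : ℝ) + 1) := by exact_mod_cast h2
    rw [← hp] at h3
    have h4 : 6 * (l : ℝ) * (5 * X) < 6 * l * (((P / (6 * l) : ℕ) : ℝ) + 1) := by
      have e1 : 6 * (l : ℝ) * (5 * X) = 30 * X * l := by ring
      rw [e1]
      linarith only [h3, hlb]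
    have h5 := lt_of_mul_lt_mul_left h4 (by positivity)
    linarith only [h1, h5, hX10]
  · rw [Nat.sub_add_cancel hq1]
    omega
  · have h1 : ((6 * l * l : ℕ) : ℝ) < (q + 1 : ℕ) * P + 3 * l := by
      have : 6 * l * l < (q + 1) * P + 3 * l := by omega
      exact_mod_cast this
    push_cast [Nat.cast_sub hq1] at h1 ⊢
    rw [← hp] at h1 ⊢
    rw [← hXN]
    have e1 : (η * X ^ 2) * (η * X ^ 2) ≤ 120 * l * (120 * l) :=
      mul_le_mul hlc.le hlc.le (by positivity) (by positivity)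
    have e2 : 3 * (l : ℝ) ≤ p := by
      have h2 : 300 * (l : ℝ) ≤ 30 * X * l :=
        mul_le_mul_of_nonneg_right (by linarith only [hX10]) hlpos.le
      linarith only [h2, hlb, hlpos]
    have e3 : 36000 * (η * X ^ 3) ≤ η * X * (η * X ^ 3) :=
      mul_le_mul_of_nonneg_right hXa (by positivity)
    have e4 : η * X * (η * X ^ 3) = η ^ 2 * X ^ 4 := by ring
    have e5 : (η * X ^ 2) * (η * X ^ 2) = η ^ 2 * X ^ 4 := by ring
    have e6 : 120 * (l : ℝ) * (120 * l) = 14400 * (l * l) := by ring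
    have e7 : 6 * (l : ℝ) * l = 6 * (l * l) := by ring
    have e8 : ((q : ℝ) + 1) * p = q * p + p := by ring
    have e9 : ((q : ℝ) - 1) * p = q * p - p := by ring
    have e10 : η ^ 2 / 3000 * X ^ 4 = η ^ 2 * X ^ 4 / 3000 := by ring
    rw [e4] at e3
    rw [e5, e6] at e1
    rw [e7, e8] at h1
    rw [e9, e10]
    linarith only [h1, e1, e2, e3, hP2]

end Pool.Agent.SBV
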