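import Pool.Agent.SBV.St

/-!
# The orientation lemma
-/

set_option autoImplicit false

open Finset

namespace Pool.Agent.SBV

namespace Orix

/-- the chosen end of an edge -/
def en (f : ℕ × ℕ → Bool) (x : ℕ × ℕ) : ℕ := if f x then x.1 else x.2

/-- the other end of an edge -/
def ot (f : ℕ × ℕ → Bool) (x : ℕ × ℕ) : ℕ := if f x then x.2 else x.1

/-- the load of a cell -/
def ld (E : Finset (ℕ × ℕ)) (cl : ℕ → ℕ) (f : ℕ × ℕ → Bool) (i : ℕ) : ℕ :=
  (E.filter fun x => cl (en f x) = i).card

/-- the sum of the squares of the loads -/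
def phi (E : Finset (ℕ × ℕ)) (cl : ℕ → ℕ) (f : ℕ × ℕ → Bool) : ℕ :=
  ∑ i ∈ (E.image (fun x => cl x.1) ∪ E.image (fun x => cl x.2)), ld E cl f i ^ 2

theorem ne_ends {E : Finset (ℕ × ℕ)} {cl : ℕ → ℕ} (hE : ∀ x ∈ E, cl x.1 ≠ cl x.2)
    (f : ℕ × ℕ → Bool) {x : ℕ × ℕ} (hx : x ∈ E) : cl (en f x) ≠ cl (ot f x) := by
  have h := hE x hx
  unfold en ot
  split_ifs
  · exact h
  · exact h.symm

theorem mem_en {E : Finset (ℕ × ℕ)} (cl : ℕ → ℕ) (f : ℕ × ℕ → Bool) {x : ℕ × ℕ} (hx : x ∈ E) :
    cl (en f x) ∈ E.image (fun x => cl x.1) ∪ E.image (fun x => cl x.2) := by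
  unfold en
  split_ifs
  · exact mem_union_left _ (mem_image_of_mem (fun x => cl x.1) hx)
  · exact mem_union_right _ (mem_image_of_mem (fun x => cl x.2) hx)

theorem mem_ot {E : Finset (ℕ × ℕ)} (cl : ℕ → ℕ) (f : ℕ × ℕ → Bool) {x : ℕ × ℕ} (hx : x ∈ E) :
    cl (ot f x) ∈ E.image (fun x => cl x.1) ∪ E.image (fun x => cl x.2) := by
  unfold ot
  split_ifs
  · exact mem_union_right _ (mem_image_of_mem (fun x => cl x.2) hx)
  · exact mem_union_left _ (mem_image_of_mem (fun x => cl x.1) hx)

theorem flip {E : Finset (ℕ × ℕ)} {cl : ℕ → ℕ} (hE : ∀ x ∈ E, cl x.1 ≠ cl x.2)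
    {f : ℕ × ℕ → Bool} (hf : ∀ g, phi E cl f ≤ phi E cl g) {x : ℕ × ℕ} (hx : x ∈ E) :
    ld E cl f (cl (en f x)) ≤ ld E cl f (cl (ot f x)) + 1 := by
  classical
  have hne := ne_ends hE f hx
  have h1 := hf (Function.update f x (!(f x)))
  have e1 : en (Function.update f x (!(f x))) x = ot f x := by
    unfold en ot
    rw [Function.update_self]
    cases f x <;> simp
  have e2 : ∀ y, y ≠ x → en (Function.update f x (!(f x))) y = en f y := by
    intro y hy
    unfold en
    rw [Function.update_of_ne hy]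
  generalize Function.update f x (!(f x)) = g at h1 e1 e2
  generalize hi : cl (en f x) = i at hne
  generalize hj : cl (ot f x) = j at hne
  have hiI : i ∈ E.image (fun x => cl x.1) ∪ E.image (fun x => cl x.2) := hi ▸ mem_en cl f hx
  have hjI : j ∈ E.image (fun x => cl x.1) ∪ E.image (fun x => cl x.2) := hj ▸ mem_ot cl f hx
  have l1 : ld E cl g i + 1 = ld E cl f i := by
    unfold ld
    have h2 : (E.filter fun y => cl (en g y) = i) = (E.filter fun y => cl (en f y) = i).erase x := by
      ext y
      simp only [mem_filter, mem_erase]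
      by_cases hy : y = x
      · subst hy
        rw [e1, hj]
        simp [hne.symm]
      · rw [e2 y hy]
        simp [hy]
    rw [h2, card_erase_add_one]
    exact mem_filter.2 ⟨hx, hi⟩
  have l2 : ld E cl g j = ld E cl f j + 1 := by
    unfold ld
    have h2 : (E.filter fun y => cl (en g y) = j) = insert x (E.filter fun y => cl (en f y) = j) := by
      ext y
      simp only [mem_filter, mem_insert]
      by_cases hy : y = x
      · subst hy
        rw [e1, hj]
        simp [hx]
      · rw [e2 y hy]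
        simp [hy]
    rw [h2, card_insert_of_notMem]
    intro h3
    exact hne (hi.symm.trans (mem_filter.1 h3).2)
  have l3 : ∀ k, k ≠ i → k ≠ j → ld E cl g k = ld E cl f k := by
    intro k hki hkj
    unfold ld
    congr 1
    ext y
    simp only [mem_filter]
    by_cases hy : y = x
    · subst hy
      rw [e1, hj, hi]
      simp [hki.symm, hkj.symm]
    · rw [e2 y hy]
  unfold phi at h1
  rw [← add_sum_erase _ _ hiI, ← add_sum_erase _ _ hiI,
    ← add_sum_erase _ _ (mem_erase.2 ⟨hne.symm, hjI⟩),
    ← add_sum_erase _ _ (mem_erase.2 ⟨hne.symm, hjI⟩)] at h1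
  have h4 : ∑ k ∈ ((E.image (fun x => cl x.1) ∪ E.image (fun x => cl x.2)).erase i).erase j,
      ld E cl g k ^ 2 =
      ∑ k ∈ ((E.image (fun x => cl x.1) ∪ E.image (fun x => cl x.2)).erase i).erase j,
      ld E cl f k ^ 2 := by
    refine sum_congr rfl fun k hk => ?_
    rw [l3 k (ne_of_mem_erase (mem_of_mem_erase hk)) (ne_of_mem_erase hk)]
  rw [h4, l2, ← l1] at h1
  rw [← l1]
  nlinarith

end Orix

open Orix

theorem thm_Ori : St_Ori := by
  classical
  intro E cl C m hE hC hm
  obtain ⟨f, hf⟩ : ∃ f, ∀ g, phi E cl f ≤ phi E cl g :=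
    ⟨Function.argmin (phi E cl), fun g => Function.argmin_le (phi E cl) g⟩
  refine ⟨E.image (en f), fun x hx => ?_, fun i => ?_⟩
  · have h1 : en f x ∈ E.image (en f) := mem_image_of_mem _ hx
    unfold en at h1 ⊢
    split_ifs at h1
    · exact Or.inl h1
    · exact Or.inr h1
  · have h0 : ((E.image (en f)).filter fun k => cl k = i).card ≤ ld E cl f i := by
      refine (card_le_card (t := (E.filter fun x => cl (en f x) = i).image (en f)) ?_).trans
        card_image_le
      intro k hk
      obtain ⟨hk1, hk2⟩ := mem_filter.1 hk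
      obtain ⟨x, hx, rfl⟩ := mem_image.1 hk1
      exact mem_image_of_mem _ (mem_filter.2 ⟨hx, hk2⟩)
    refine (Nat.mul_le_mul h0 (Nat.sub_le_sub_right h0 1)).trans ?_
    have h1 : ld E cl f i ≤ (2 * C) *
        ((E.filter fun x => cl (en f x) = i).image fun x => cl (ot f x)).card := by
      refine card_le_mul_card_image _ _ fun j _ => ?_
      have h2 : ((E.filter fun x => cl (en f x) = i).filter fun x => cl (ot f x) = j) ⊆
          (E.filter fun x => cl x.1 = i ∧ cl x.2 = j) ∪
            (E.filter fun x => cl x.1 = j ∧ cl x.2 = i) := by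
        intro x hx
        obtain ⟨hx1, hx2⟩ := mem_filter.1 hx
        obtain ⟨hx1, hx3⟩ := mem_filter.1 hx1
        unfold en at hx3
        unfold ot at hx2
        split_ifs at hx2 hx3
        · exact mem_union_left _ (mem_filter.2 ⟨hx1, hx3, hx2⟩)
        · exact mem_union_right _ (mem_filter.2 ⟨hx1, hx2, hx3⟩)
      refine (card_le_card h2).trans ((card_union_le _ _).trans ?_)
      have := hC i j
      have := hC j i
      omega
    have h2 : ((E.filter fun x => cl (en f x) = i).image fun x => cl (ot f x)).card *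
        (ld E cl f i - 1) ≤ m := by
      have h3 : ∀ j ∈ (E.filter fun x => cl (en f x) = i).image fun x => cl (ot f x),
          ld E cl f i - 1 ≤ ld E cl f j := by
        intro j hj
        obtain ⟨x, hx, rfl⟩ := mem_image.1 hj
        obtain ⟨hx1, hx2⟩ := mem_filter.1 hx
        have h4 := Orix.flip hE hf hx1
        rw [hx2] at h4
        omega
      refine (card_nsmul_le_sum _ _ _ h3).trans ?_
      refine le_trans ?_ ((card_le_card (filter_subset
        (fun x => cl (en f x) ∈ (E.filter fun x => cl (en f x) = i).image fun x => cl (ot f x))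
          E)).trans hm)
      unfold ld
      rw [sum_card_fiberwise_eq_card_filter]
    calc ld E cl f i * (ld E cl f i - 1)
        ≤ (2 * C * ((E.filter fun x => cl (en f x) = i).image fun x => cl (ot f x)).card) *
          (ld E cl f i - 1) := Nat.mul_le_mul_right _ h1
      _ = 2 * C * (((E.filter fun x => cl (en f x) = i).image fun x => cl (ot f x)).card *
          (ld E cl f i - 1)) := by ring
      _ ≤ 2 * C * m := Nat.mul_le_mul_left _ h2

end Pool.Agent.SBV
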