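import Pool.Agent.SBV.St

/-!
# The pattern

Candidates in the cells, deletion of the coincidences, choice of the residues.
-/

set_option autoImplicit false

open Finset

namespace Pool.Agent.SBV

namespace Patx

theorem zz_lo (l k : ℕ) : 6 * l * k ≤ zz l k := Nat.le_add_right _ _

theorem zz_hi {l : ℕ} (hl : 0 < l) (k : ℕ) : zz l k < 6 * l * k + 3 * l := by
  unfold zz
  have := Nat.mod_lt (k * k) hl
  omega

theorem zz_three (l k : ℕ) : 3 ∣ zz l k := by
  unfold zz
  exact ⟨2 * l * k + k * k % l, by ring⟩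

theorem zz_strictMono {l : ℕ} (hl : 0 < l) : StrictMono (zz l) := by
  intro a b hab
  have h1 := zz_hi hl a
  have h2 := zz_lo l b
  have h3 : 6 * l * (a + 1) ≤ 6 * l * b := Nat.mul_le_mul_left _ hab
  have h4 : 6 * l * (a + 1) = 6 * l * a + 6 * l := by ring
  omega

/-- The candidates in the cell `j`. -/
def cand (l P j : ℕ) : Finset ℕ :=
  Ico (j * P / (6 * l) + 1) (j * P / (6 * l) + 1 + (P / (6 * l) - 1))

theorem cand_cell {l P j k : ℕ} (hl : 0 < l) (hk : k ∈ cand l P j) :
    j * P ≤ zz l k ∧ zz l k < (j + 1) * P := by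
  unfold cand at hk
  rw [mem_Ico] at hk
  obtain ⟨hk1, hk2⟩ := hk
  have hc : 0 < 6 * l := by omega
  have e1 := Nat.div_add_mod (j * P) (6 * l)
  have e2 := Nat.mod_lt (j * P) hc
  have e3 := Nat.div_mul_le_self P (6 * l)
  set A := j * P / (6 * l) with hA
  set q := P / (6 * l) with hq
  have h1 : 6 * l * (A + 1) ≤ 6 * l * k := Nat.mul_le_mul_left _ hk1
  have h1' : 6 * l * (A + 1) = 6 * l * A + 6 * l := by ring
  have h2 : k + 1 ≤ A + q := by omega
  have h3 : 6 * l * (k + 1) ≤ 6 * l * (A + q) := Nat.mul_le_mul_left _ h2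
  have h3' : 6 * l * (k + 1) = 6 * l * k + 6 * l := by ring
  have h3'' : 6 * l * (A + q) = 6 * l * A + q * (6 * l) := by ring
  have h4 : (j + 1) * P = j * P + P := by ring
  have h5 := zz_lo l k
  have h6 := zz_hi hl k
  constructor
  · omega
  · omega

theorem cell_div {P j z : ℕ} (h1 : j * P ≤ z) (h2 : z < (j + 1) * P) : z / P = j := by
  rcases Nat.eq_zero_or_pos P with h | h
  · subst h; omega
  · apply Nat.div_eq_of_lt_le h1 h2

end Patx

open Patx

theorem thm_Pat (hEts : St_Ets) (hCoi : St_Coi) (hOri : St_Ori) : St_Pat := by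
  intro l P J W h need hl hP hl5 hlP hnP hh hneed hW
  have hl0 : 0 < l := by omega
  have hP0 : 0 < P := hP.pos
  set n := J * P / (6 * l) + 1 with hn
  set C := n / l + 1 with hC
  have hmono := zz_strictMono hl0
  have hinj := hmono.injective
  classical
  -- the edges
  set E : Finset (ℕ × ℕ) := ((range n) ×ˢ (range n)).filter
    fun x => ∃ e, 1 ≤ e ∧ e < J ∧ zz l x.2 = zz l x.1 + e * P with hE
  have memE : ∀ x : ℕ × ℕ, x ∈ E ↔ (x.1 < n ∧ x.2 < n) ∧
      ∃ e, 1 ≤ e ∧ e < J ∧ zz l x.2 = zz l x.1 + e * P := by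
    intro x
    rw [hE, mem_filter, mem_product, mem_range, mem_range]
  have hcl : ∀ (z e : ℕ), (z + e * P) / P = z / P + e := by
    intro z e
    exact Nat.add_mul_div_right z e hP0
  -- at most C edges for every difference
  have hedge : ∀ e : ℕ, 1 ≤ e →
      (((range n) ×ˢ (range n)).filter fun x => zz l x.2 = zz l x.1 + e * P).card ≤ C := by
    intro e he
    have hco := hCoi l P n hl hP hl5 hlP hnP e he
    refine le_trans ?_ hco
    apply Finset.card_le_card_of_injOn (fun x => x.1)
    · intro x hx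
      have hx' := (mem_filter.1 (Finset.mem_coe.1 hx))
      obtain ⟨hx1, hx2⟩ := hx'
      rw [mem_product, mem_range, mem_range] at hx1
      simp only [Finset.coe_filter, mem_range, Set.mem_ofPred_eq]
      exact ⟨hx1.1, x.2, hx1.2, hx2⟩
    · intro x hx y hy hxy
      have hx' := (mem_filter.1 (Finset.mem_coe.1 hx)).2
      have hy' := (mem_filter.1 (Finset.mem_coe.1 hy)).2
      have hxy' : x.1 = y.1 := hxy
      apply Prod.ext hxy'
      apply hinj
      rw [hx', hy', hxy']
  obtain ⟨D, hD1, hD2⟩ := hOri E (fun k => zz l k / P) C (C * J) (by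
      intro x hx
      obtain ⟨_, e, he1, _, he3⟩ := (memE x).1 hx
      show zz l x.1 / P ≠ zz l x.2 / P
      rw [he3, hcl]
      omega) (by
      intro i j
      by_cases hij : i < j
      · refine le_trans (card_le_card ?_) (hedge (j - i) (by omega))
        intro x hx
        rw [mem_filter] at hx
        obtain ⟨hx1, hx2, hx3⟩ := hx
        obtain ⟨⟨h1, h2⟩, e, he1, _, he3⟩ := (memE x).1 hx1
        rw [mem_filter, mem_product, mem_range, mem_range]
        refine ⟨⟨h1, h2⟩, ?_⟩
        rw [he3, hcl] at hx3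
        have : e = j - i := by omega
        rw [he3, this]
      · have : (E.filter fun x => zz l x.1 / P = i ∧ zz l x.2 / P = j) = ∅ := by
          apply filter_eq_empty_iff.2
          intro x hx hx23
          obtain ⟨_, e, he1, _, he3⟩ := (memE x).1 hx
          obtain ⟨hx2, hx3⟩ := hx23
          rw [he3, hcl] at hx3
          omega
        show (E.filter fun x => zz l x.1 / P = i ∧ zz l x.2 / P = j).card ≤ C
        rw [this]
        simp) (by
      have hsub : E ⊆ (range J).biUnion fun e => if 1 ≤ e then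
          (((range n) ×ˢ (range n)).filter fun x => zz l x.2 = zz l x.1 + e * P) else ∅ := by
        intro x hx
        obtain ⟨⟨h1, h2⟩, e, he1, he2, he3⟩ := (memE x).1 hx
        rw [mem_biUnion]
        refine ⟨e, mem_range.2 he2, ?_⟩
        rw [if_pos he1, mem_filter, mem_product, mem_range, mem_range]
        exact ⟨⟨h1, h2⟩, he3⟩
      refine le_trans (card_le_card hsub) (le_trans card_biUnion_le ?_)
      have : ∀ e ∈ range J, (if 1 ≤ e then
          (((range n) ×ˢ (range n)).filter fun x => zz l x.2 = zz l x.1 + e * P) else ∅).card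
          ≤ C := by
        intro e _
        split_ifs with h1
        · exact hedge e h1
        · simp
      refine le_trans (sum_le_sum this) ?_
      rw [sum_const, card_range, smul_eq_mul, mul_comm])
  -- the loads
  have hload : ∀ j, (D.filter fun k => zz l k / P = j).card ≤ h := fun j => hh _ (hD2 j)
  -- the remaining candidates
  have hrem : ∀ j < J, need j ≤ ((cand l P j) \ D).card := by
    intro j hj
    have h1 : (cand l P j).card = P / (6 * l) - 1 := by
      unfold cand
      rw [Nat.card_Ico]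
      omega
    have h2 : ((cand l P j) ∩ D).card ≤ h := by
      refine le_trans (card_le_card ?_) (hload j)
      intro k hk
      rw [mem_inter] at hk
      rw [mem_filter]
      refine ⟨hk.2, ?_⟩
      obtain ⟨h3, h4⟩ := cand_cell hl0 hk.1
      exact cell_div h3 h4
    have h3 := card_sdiff_add_card_inter (cand l P j) D
    have h4 := hneed j hj
    omega
  have hch : ∀ j : ℕ, ∃ T : Finset ℕ, j < J → T ⊆ (cand l P j) \ D ∧ T.card = need j := by
    intro j
    by_cases hj : j < J
    · obtain ⟨T, hT1, hT2⟩ := Finset.exists_subset_card_eq (hrem j hj)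
      exact ⟨T, fun _ => ⟨hT1, hT2⟩⟩
    · exact ⟨∅, fun h => absurd h hj⟩
  choose T hT using hch
  have hTc : ∀ j < J, ∀ k ∈ T j, j * P ≤ zz l k ∧ zz l k < (j + 1) * P ∧ k ∉ D ∧ k < n := by
    intro j hj k hk
    have h1 := (hT j hj).1 hk
    rw [mem_sdiff] at h1
    obtain ⟨h2, h3⟩ := cand_cell hl0 h1.1
    refine ⟨h2, h3, h1.2, ?_⟩
    have h4 := zz_lo l k
    have h5 : (j + 1) * P ≤ J * P := Nat.mul_le_mul_right _ hj
    have h6 : k * (6 * l) ≤ J * P := by
      have : k * (6 * l) = 6 * l * k := by ring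
      omega
    have h7 : k ≤ J * P / (6 * l) := (Nat.le_div_iff_mul_le (by omega)).2 h6
    omega
  refine ⟨fun j => (T j).image fun k => zz l k - j * P, ?_, ?_, ?_⟩
  · intro j hj
    refine ⟨?_, ?_⟩
    · intro t ht
      rw [mem_image] at ht
      obtain ⟨k, hk, rfl⟩ := ht
      obtain ⟨h1, h2, _, _⟩ := hTc j hj k hk
      rw [mem_range]
      have : (j + 1) * P = j * P + P := by ring
      omega
    · rw [card_image_of_injOn, (hT j hj).2]
      intro k hk k' hk' hkk
      have h1 := (hTc j hj k (Finset.mem_coe.1 hk)).1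
      have h2 := (hTc j hj k' (Finset.mem_coe.1 hk')).1
      have h3 : zz l k - j * P = zz l k' - j * P := hkk
      apply hinj
      omega
  · -- disjointness
    have key : ∀ i < J, ∀ j < J, i < j →
        Disjoint ((T i).image fun k => zz l k - i * P) ((T j).image fun k => zz l k - j * P) := by
      intro i hi j hj hij
      rw [disjoint_left]
      intro t ht ht'
      rw [mem_image] at ht ht'
      obtain ⟨k, hk, hkt⟩ := ht
      obtain ⟨k', hk', hkt'⟩ := ht'
      obtain ⟨h1, h2, h3, h4⟩ := hTc i hi k hk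
      obtain ⟨h1', h2', h3', h4'⟩ := hTc j hj k' hk'
      have hj' : j * P = i * P + (j - i) * P := by
        rw [← add_mul]
        congr 1
        omega
      have hz : zz l k' = zz l k + (j - i) * P := by omega
      have : (k, k') ∈ E := by
        rw [memE]
        exact ⟨⟨h4, h4'⟩, j - i, by omega, by omega, hz⟩
      rcases hD1 _ this with h | h
      · exact h3 h
      · exact h3' h
    intro i hi j hj hij
    rcases Nat.lt_or_gt_of_ne hij with h' | h'
    · exact key i hi j hj h'
    · exact (key j hj i hi h').symm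
  · -- the thick Sidon property
    intro a j1 j2 j3 j4 t1 t2 t3 t4 hj1 hj2 hj3 hj4 a1 b1 a2 b2 a3 b3 a4 b4 ht1 ht2 ht3 ht4 hd hPd
    simp only [mem_image] at ht1 ht2 ht3 ht4
    obtain ⟨k1, hk1, rfl⟩ := ht1
    obtain ⟨k2, hk2, rfl⟩ := ht2
    obtain ⟨k3, hk3, rfl⟩ := ht3
    obtain ⟨k4, hk4, rfl⟩ := ht4
    obtain ⟨l1, u1, -, -⟩ := hTc j1 hj1 k1 hk1
    obtain ⟨l2, u2, -, -⟩ := hTc j2 hj2 k2 hk2
    obtain ⟨l3, u3, -, -⟩ := hTc j3 hj3 k3 hk3
    obtain ⟨l4, u4, -, -⟩ := hTc j4 hj4 k4 hk4
    -- the window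
    have hwin : ∀ j j' k k' : ℕ, a ≤ j → j' ≤ a + W → j * P ≤ zz l k → zz l k' < (j' + 1) * P →
        k' < k + l := by
      intro j j' k k' ha hb hk hk'
      have e1 := zz_hi hl0 k
      have e2 := zz_lo l k'
      have e3 : a * P ≤ j * P := Nat.mul_le_mul_right _ ha
      have e4 : (j' + 1) * P ≤ (a + W + 1) * P := Nat.mul_le_mul_right _ (by omega)
      have e5 : (a + W + 1) * P = a * P + (W + 1) * P := by ring
      have e6 : 6 * l * k' < 6 * l * (k + l) := by
        have : 6 * l * (k + l) = 6 * l * k + 6 * l * l := by ring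
        omega
      exact Nat.lt_of_mul_lt_mul_left e6
    -- the equation
    have hsum : zz l k1 + zz l k4 = zz l k2 + zz l k3 := by
      have c1 : ((zz l k1 - j1 * P : ℕ) : ℤ) = (zz l k1 : ℤ) - j1 * P := by
        rw [Nat.cast_sub l1]; push_cast; ring
      have c2 : ((zz l k2 - j2 * P : ℕ) : ℤ) = (zz l k2 : ℤ) - j2 * P := by
        rw [Nat.cast_sub l2]; push_cast; ring
      have c3 : ((zz l k3 - j3 * P : ℕ) : ℤ) = (zz l k3 : ℤ) - j3 * P := by
        rw [Nat.cast_sub l3]; push_cast; ring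
      have c4 : ((zz l k4 - j4 * P : ℕ) : ℤ) = (zz l k4 : ℤ) - j4 * P := by
        rw [Nat.cast_sub l4]; push_cast; ring
      rw [c1, c2, c3, c4] at hPd
      have v1 : (zz l k1 : ℤ) < (j1 + 1) * P := by exact_mod_cast u1
      have v2 : (zz l k2 : ℤ) < (j2 + 1) * P := by exact_mod_cast u2
      have v3 : (zz l k3 : ℤ) < (j3 + 1) * P := by exact_mod_cast u3
      have v4 : (zz l k4 : ℤ) < (j4 + 1) * P := by exact_mod_cast u4
      have w1 : (j1 : ℤ) * P ≤ zz l k1 := by exact_mod_cast l1
      have w2 : (j2 : ℤ) * P ≤ zz l k2 := by exact_mod_cast l2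
      have w3 : (j3 : ℤ) * P ≤ zz l k3 := by exact_mod_cast l3
      have w4 : (j4 : ℤ) * P ≤ zz l k4 := by exact_mod_cast l4
      obtain ⟨r, hr⟩ := hPd
      have hPz : (0 : ℤ) < P := by exact_mod_cast hP0
      have hr1 : r < 2 := by
        by_contra hcon
        have : (2 : ℤ) ≤ r := by omega
        nlinarith
      have hr2 : -2 < r := by
        by_contra hcon
        have : r ≤ -2 := by omega
        nlinarith
      set δ : ℤ := (j1 : ℤ) - j2 - j3 + j4 with hδ
      have htot : (zz l k1 : ℤ) - zz l k2 - zz l k3 + zz l k4 = P * (δ + r) := by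
        rw [hδ]
        linear_combination hr
      have h3 : (3 : ℤ) ∣ P * (δ + r) := by
        rw [← htot]
        obtain ⟨x1, hx1⟩ := zz_three l k1
        obtain ⟨x2, hx2⟩ := zz_three l k2
        obtain ⟨x3, hx3⟩ := zz_three l k3
        obtain ⟨x4, hx4⟩ := zz_three l k4
        rw [hx1, hx2, hx3, hx4]
        exact ⟨(x1 : ℤ) - x2 - x3 + x4, by push_cast; ring⟩
      have hcop : IsCoprime (3 : ℤ) (P : ℤ) := by
        have : Nat.Coprime 3 P := by
          rw [Nat.coprime_primes (by norm_num) hP]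
          omega
        exact_mod_cast Nat.isCoprime_iff_coprime.2 this
      have h3' : (3 : ℤ) ∣ δ + r := hcop.dvd_of_dvd_mul_left h3
      have hδ' := abs_le.1 hd
      have hz : δ + r = 0 := by
        obtain ⟨y, hy⟩ := h3'
        have hy1 : δ + r < 3 := by omega
        have hy2 : -3 < δ + r := by omega
        omega
      rw [hz, mul_zero] at htot
      have : (zz l k1 : ℤ) + zz l k4 = zz l k2 + zz l k3 := by linarith
      exact_mod_cast this
    set b := min (min k1 k2) (min k3 k4) with hb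
    have hb1 : b ≤ k1 := le_trans (min_le_left _ _) (min_le_left _ _)
    have hb2 : b ≤ k2 := le_trans (min_le_left _ _) (min_le_right _ _)
    have hb3 : b ≤ k3 := le_trans (min_le_right _ _) (min_le_left _ _)
    have hb4 : b ≤ k4 := le_trans (min_le_right _ _) (min_le_right _ _)
    have hbk : ∀ x : ℕ, x < k1 + l → x < k2 + l → x < k3 + l → x < k4 + l → x < b + l := by
      intro x x1 x2 x3 x4
      have : b = k1 ∨ b = k2 ∨ b = k3 ∨ b = k4 := by
        rw [hb]
        omega
      rcases this with h' | h' | h' | h' <;> omega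
    have res := hEts l hl hl5 b k1 k2 k3 k4
      hb1 (hbk k1 (hwin _ _ _ _ a1 b1 l1 u1) (hwin _ _ _ _ a2 b1 l2 u1)
        (hwin _ _ _ _ a3 b1 l3 u1) (hwin _ _ _ _ a4 b1 l4 u1))
      hb2 (hbk k2 (hwin _ _ _ _ a1 b2 l1 u2) (hwin _ _ _ _ a2 b2 l2 u2)
        (hwin _ _ _ _ a3 b2 l3 u2) (hwin _ _ _ _ a4 b2 l4 u2))
      hb3 (hbk k3 (hwin _ _ _ _ a1 b3 l1 u3) (hwin _ _ _ _ a2 b3 l2 u3)
        (hwin _ _ _ _ a3 b3 l3 u3) (hwin _ _ _ _ a4 b3 l4 u3))
      hb4 (hbk k4 (hwin _ _ _ _ a1 b4 l1 u4) (hwin _ _ _ _ a2 b4 l2 u4)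
        (hwin _ _ _ _ a3 b4 l3 u4) (hwin _ _ _ _ a4 b4 l4 u4)) hsum
    have q1 := cell_div l1 u1
    have q2 := cell_div l2 u2
    have q3 := cell_div l3 u3
    have q4 := cell_div l4 u4
    rcases res with ⟨r1, r2⟩ | ⟨r1, r2⟩
    · left
      subst r1 r2
      have e1 : j1 = j2 := by rw [← q1, ← q2]
      have e2 : j3 = j4 := by rw [← q3, ← q4]
      subst e1 e2
      exact ⟨rfl, rfl, rfl, rfl⟩
    · right
      subst r1 r2
      have e1 : j1 = j3 := by rw [← q1, ← q3]
      have e2 : j2 = j4 := by rw [← q2, ← q4]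
      subst e1 e2
      exact ⟨rfl, rfl, rfl, rfl⟩

end Pool.Agent.SBV
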