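import Pool.Agent.SBV.St

/-!
# Balanced rounding

Module Rnd of the barrier theorem (problem MP_e9f37f_nt, architect helper7).
-/

set_option autoImplicit false

open Finset

namespace Pool.Agent.SBV

namespace Rndx

/-- Abel summation with `0 ≤ f ≤ 1`. -/
theorem abel (a f : ℕ → ℝ) (ha : ∀ j, 0 ≤ a j) (hf : ∀ j, 0 ≤ f j) (hf1 : ∀ j, f j ≤ 1) (m : ℕ) :
    ∑ j ∈ range (m + 1), a j * (f j - f (j + 1)) + a m * f (m + 1)
      ≤ a 0 + ∑ j ∈ range m, |a (j + 1) - a j| := by
  induction m with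
  | zero =>
    simp only [zero_add, sum_range_one, range_zero, sum_empty, add_zero]
    nlinarith [ha 0, hf 0, hf1 0]
  | succ m ih =>
    rw [sum_range_succ (fun j => a j * (f j - f (j + 1))) (m + 1),
      sum_range_succ (fun j => |a (j + 1) - a j|) m]
    have h1 : (a (m + 1) - a m) * f (m + 1) ≤ |a (m + 1) - a m| := by
      calc (a (m + 1) - a m) * f (m + 1) ≤ |a (m + 1) - a m| * f (m + 1) :=
            mul_le_mul_of_nonneg_right (le_abs_self _) (hf _)
        _ ≤ |a (m + 1) - a m| * 1 := mul_le_mul_of_nonneg_left (hf1 _) (abs_nonneg _)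
        _ = |a (m + 1) - a m| := mul_one _
    have h2 : a (m + 1) * (f (m + 1) - f (m + 1 + 1)) + a (m + 1) * f (m + 1 + 1) =
        a m * f (m + 1) + (a (m + 1) - a m) * f (m + 1) := by ring
    linarith [ih, h1, h2]

theorem abel' (a f : ℕ → ℝ) (ha : ∀ j, 0 ≤ a j) (hf : ∀ j, 0 ≤ f j) (hf1 : ∀ j, f j ≤ 1) (m : ℕ) :
    ∑ j ∈ range (m + 1), a j * (f j - f (j + 1))
      ≤ a 0 + ∑ j ∈ range m, |a (j + 1) - a j| := by
  have h := abel a f ha hf hf1 m
  have h2 := mul_nonneg (ha m) (hf (m + 1))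
  linarith

end Rndx

open Rndx in
/-- Balanced rounding. -/
theorem thm_Rnd : St_Rnd := by
  intro J lam V hlam hV hV0
  set L : ℕ → ℝ := fun j => ∑ i ∈ range j, lam i with hL
  have hL0 : ∀ j, 0 ≤ L j := fun j => sum_nonneg fun i _ => hlam i
  have hLs : ∀ j, L (j + 1) = L j + lam j := fun j => sum_range_succ _ _
  set f : ℕ → ℝ := fun j => L j - (⌊L j⌋₊ : ℝ) with hf
  have hf0 : ∀ j, 0 ≤ f j := fun j => sub_nonneg.2 (Nat.floor_le (hL0 j))
  have hf1 : ∀ j, f j ≤ 1 := fun j => by
    have h := Nat.lt_floor_add_one (L j)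
    simp only [hf]
    linarith
  have hmono : ∀ j, ⌊L j⌋₊ ≤ ⌊L (j + 1)⌋₊ := fun j =>
    Nat.floor_le_floor (by rw [hLs]; linarith [hlam j])
  have hn : ∀ j, ((⌊L (j + 1)⌋₊ - ⌊L j⌋₊ : ℕ) : ℝ) = lam j + (f j - f (j + 1)) := by
    intro j
    rw [Nat.cast_sub (hmono j)]
    simp only [hf]
    rw [hLs]
    ring
  refine ⟨fun j => ⌊L (j + 1)⌋₊ - ⌊L j⌋₊, fun j _ => ?_, ?_, fun e => ?_⟩
  · rw [hn]
    linarith [hf1 j, hf0 (j + 1)]
  · have h1 : ∑ j ∈ range J, ((⌊L (j + 1)⌋₊ - ⌊L j⌋₊ : ℕ) : ℝ) =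
        ∑ j ∈ range J, lam j + (f 0 - f J) := by
      rw [sum_congr rfl fun j _ => hn j, sum_add_distrib, sum_range_sub']
    rw [h1]
    linarith [hf1 J, hf0 0]
  · rcases Nat.eq_zero_or_pos (J - e) with h0 | h0
    · rw [h0]
      simp only [range_zero, sum_empty]
      have : (0 : ℝ) ≤ J := Nat.cast_nonneg _
      linarith
    · obtain ⟨m, hm⟩ : ∃ m, J - e = m + 1 := ⟨J - e - 1, by omega⟩
      rw [hm]
      have hJm : J = e + m + 1 := by omega
      have hg : ∀ i, 0 ≤ |lam (i + 1) - lam i| := fun i => abs_nonneg _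
      -- first sum
      have s1 : ∑ j ∈ range (m + 1), lam j * (f (j + e) - f (j + e + 1)) ≤ V := by
        have h := abel' lam (fun j => f (j + e)) hlam (fun j => hf0 _) (fun j => hf1 _) m
        have h2 : ∑ j ∈ range m, |lam (j + 1) - lam j| ≤
            ∑ i ∈ range (J - 1), |lam (i + 1) - lam i| :=
          sum_le_sum_of_subset_of_nonneg (range_subset_range.2 (by omega)) fun i _ _ => hg i
        have h3 := hV 0 (by omega)
        have h4 : ∑ j ∈ range (m + 1), lam j * (f (j + e) - f (j + e + 1)) =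
            ∑ j ∈ range (m + 1), lam j * (f (j + e) - f (j + 1 + e)) :=
          sum_congr rfl fun j _ => by rw [show j + e + 1 = j + 1 + e by ring]
        rw [h4]
        linarith
      -- second sum
      have s2 : ∑ j ∈ range (m + 1), lam (j + e) * (f j - f (j + 1)) ≤ V := by
        have h := abel' (fun j => lam (j + e)) f (fun j => hlam _) hf0 hf1 m
        have h2 : ∑ j ∈ range m, |lam (j + 1 + e) - lam (j + e)| ≤
            ∑ i ∈ range (J - 1), |lam (i + 1) - lam i| := by
          have h5 : J - 1 = e + m := by omega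
          rw [h5, sum_range_add]
          have h6 : ∑ j ∈ range m, |lam (j + 1 + e) - lam (j + e)| =
              ∑ j ∈ range m, |lam (e + j + 1) - lam (e + j)| :=
            sum_congr rfl fun j _ => by
              rw [show j + 1 + e = e + j + 1 by ring, show j + e = e + j by ring]
          rw [h6]
          have h7 : 0 ≤ ∑ i ∈ range e, |lam (i + 1) - lam i| := sum_nonneg fun i _ => hg i
          linarith
        have h3 := hV e (by omega)
        simp only [zero_add] at h
        linarith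
      -- third sum
      have s3 : ∑ j ∈ range (m + 1), (f j - f (j + 1)) * (f (j + e) - f (j + e + 1)) ≤ J := by
        have h : ∀ j ∈ range (m + 1), (f j - f (j + 1)) * (f (j + e) - f (j + e + 1)) ≤ (1 : ℝ) := by
          intro j _
          have a1 : |f j - f (j + 1)| ≤ 1 :=
            abs_le.2 ⟨by linarith [hf0 j, hf1 (j + 1)], by linarith [hf1 j, hf0 (j + 1)]⟩
          have a2 : |f (j + e) - f (j + e + 1)| ≤ 1 :=
            abs_le.2 ⟨by linarith [hf0 (j + e), hf1 (j + e + 1)],
              by linarith [hf1 (j + e), hf0 (j + e + 1)]⟩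
          calc (f j - f (j + 1)) * (f (j + e) - f (j + e + 1))
              ≤ |(f j - f (j + 1)) * (f (j + e) - f (j + e + 1))| := le_abs_self _
            _ = |f j - f (j + 1)| * |f (j + e) - f (j + e + 1)| := abs_mul _ _
            _ ≤ 1 * 1 := mul_le_mul a1 a2 (abs_nonneg _) zero_le_one
            _ = 1 := one_mul _
        have h2 := sum_le_sum h
        rw [sum_const, card_range, nsmul_eq_mul, mul_one] at h2
        have h3 : ((m + 1 : ℕ) : ℝ) ≤ J := by exact_mod_cast (by omega : m + 1 ≤ J)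
        linarith
      have key : ∑ j ∈ range (m + 1),
          ((⌊L (j + 1)⌋₊ - ⌊L j⌋₊ : ℕ) : ℝ) * ((⌊L (j + e + 1)⌋₊ - ⌊L (j + e)⌋₊ : ℕ) : ℝ) =
          ∑ j ∈ range (m + 1), lam j * lam (j + e)
          + ∑ j ∈ range (m + 1), lam j * (f (j + e) - f (j + e + 1))
          + ∑ j ∈ range (m + 1), lam (j + e) * (f j - f (j + 1))
          + ∑ j ∈ range (m + 1), (f j - f (j + 1)) * (f (j + e) - f (j + e + 1)) := by
        rw [← sum_add_distrib, ← sum_add_distrib, ← sum_add_distrib]
        refine sum_congr rfl fun j _ => ?_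
        rw [hn, hn]
        ring
      rw [key]
      linarith

end Pool.Agent.SBV
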