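import Pool.Agent.SAV.All
import Pool.Agent.SBV.Ets
import Pool.Agent.SBV.Coi
import Pool.Agent.SBV.Ori
import Pool.Agent.SBV.Pat
import Pool.Agent.SBV.Aff
import Pool.Agent.SBV.Loc
import Pool.Agent.SBV.Rnd
import Pool.Agent.SBV.Nua
import Pool.Agent.SBV.Nub
import Pool.Agent.SBV.Asm

/-!
# Assembly
-/

set_option autoImplicit false

namespace Pool.Agent.SBV

/-- The barrier theorem. -/
theorem bar : St_Bar :=
  thm_Bar Pool.Agent.SAV.prf Pool.Agent.SAV.rsm Pool.Agent.SAV.rlg (thm_Pat thm_Ets thm_Coi thm_Ori)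
    thm_Aff thm_Loc thm_Rnd thm_Nua thm_Nub

end Pool.Agent.SBV
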