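import Pool.Agent.SAV.St

/-!
# The barrier theorem: local Sidon sets which are Sidon on average

THEOREM (`St_Bar`).  For every `ε > 0` there is `c > 0` such that for all large `N` there is a random
subset `A` of `{1, ..., N}`, Sidon on average, all whose realizations are Sidon sets in every
interval of length `≤ c N`, with mean size at least `√N + (2 √2/3 - ε) N^(1/4)`.

## Construction
`X = N^(1/4)`, `P` a prime in `(η X^3/2, η X^3]`, `J = N / P` cells of length `P`: cell `j` is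
`{j P + 1, ..., (j+1) P}`.  `U = ⌊√2 X^3/P⌋ - 25`, `w_j = 1 + pf U J j` the renewal profile of
`Pool.Agent.SAV` (`Prf`, `Rsm`, `Rlg`), `G = √((P - E)/J)` with `E = O(X)`, so `G ≈ P/X^2`.
The integers `n_j` are a balanced rounding of `G w_j` (`Rnd`).  `l` is a prime of order `η X^2`, and
`z_k = 6 l k + 3 (k^2 mod l)`.  In windows of `l` consecutive indices the `z_k` form a Sidon set
(`Ets`).  For every `e ≥ 1` there are at most `C = O(1)` pairs `z_k' = z_k + e P` (`Coi`); delete one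
element of each such pair in such a way that only `O(√J)` elements are deleted in every cell
(`Ori`).  Choose `n_j` of the remaining `z_k` in the cell `[j P, (j+1) P)` and let `S_j` be the set of
their residues `z_k - j P` (`Pat`): the `S_j` are pairwise disjoint.  If `z_1 - z_2 - z_3 + z_4` is
`(δ + r) P` with `|δ| ≤ 1`, `|r| ≤ 1`, then it is `0`, because all `z_k` are divisible by `3` and `P`
is not; so `S` is `Thick`.  The random set is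
`A_{u,v} = ⋃_j {j P + 1 + ((u t + v) mod P) : t ∈ S_j}`, `1 ≤ u < P`, `0 ≤ v < P` uniform (`Aff`).
For two distinct residues `t, t'` the pair `(u t + v, u t' + v)` is uniform on the pairs of distinct
residues mod `P`, so with `R_e = ∑ n_j n_(j+e)` (`e ≥ 1`), `R_0 = ∑ n_j (n_j - 1)` the mean number
of representations of the difference `d = e P + t`, `0 ≤ t < P`, is `0` if `t = 0` and
`((P - t) R_e + t R_(e+1)) / (P (P - 1)) ≤ 1` if `t ≥ 1`.  Sums: as in `SAV`, at most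
`∑ n_j^2 / (2 (P-1)) + max n_j / P ≤ 1`.
-/

set_option autoImplicit false

open Finset

namespace Pool.Agent.SBV

open Pool.Agent.SAV

/-- The Erdos-Turan type progression. -/
def zz (l k : ℕ) : ℕ := 6 * l * k + 3 * (k * k % l)

/-- A window of `l` consecutive terms of `zz` is a Sidon set.  (`6 l K + 3 Q = 0`, `|Q| < 2 l`, so
`K = Q = 0`; then `2 (k1 - k2) (k2 - k4) = 0` mod `l`.) -/
def St_Ets : Prop := ∀ l : ℕ, l.Prime → 5 ≤ l → ∀ a k1 k2 k3 k4 : ℕ,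
  a ≤ k1 → k1 < a + l → a ≤ k2 → k2 < a + l → a ≤ k3 → k3 < a + l → a ≤ k4 → k4 < a + l →
  zz l k1 + zz l k4 = zz l k2 + zz l k3 → (k1 = k2 ∧ k3 = k4) ∨ (k1 = k3 ∧ k2 = k4)

/-- Differences which are a given multiple of `P`: `κ = k' - k` is determined by `e` (an open
interval of length `6 l` contains at most one multiple of `6 l`), and `l ∤ κ` (else `P ∣ 6 l κ`, so
`P ∣ κ < n ≤ P`); then `2 k κ` is determined mod `l`, so `k` is determined mod `l`. -/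
def St_Coi : Prop := ∀ l P n : ℕ, l.Prime → P.Prime → 5 ≤ l → 6 * l < P → n ≤ P →
  ∀ e : ℕ, 1 ≤ e →
  ((range n).filter fun k => ∃ k' < n, zz l k' = zz l k + e * P).card ≤ n / l + 1

/-- Orientation: minimise the sum of the squares of the loads; if a cell has load `h` then the other
end of each of its edges has load at least `h - 1`. -/
def St_Ori : Prop := ∀ (E : Finset (ℕ × ℕ)) (cl : ℕ → ℕ) (C m : ℕ),
  (∀ x ∈ E, cl x.1 ≠ cl x.2) →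
  (∀ i j, (E.filter fun x => cl x.1 = i ∧ cl x.2 = j).card ≤ C) → E.card ≤ m →
  ∃ D : Finset ℕ, (∀ x ∈ E, x.1 ∈ D ∨ x.2 ∈ D) ∧
    ∀ i, (D.filter fun k => cl k = i).card * ((D.filter fun k => cl k = i).card - 1)
      ≤ 2 * C * m

/-- The thick Sidon property in windows of `W + 1` cells. -/
def Thick (P J W : ℕ) (S : ℕ → Finset ℕ) : Prop :=
  ∀ a j1 j2 j3 j4 t1 t2 t3 t4 : ℕ, j1 < J → j2 < J → j3 < J → j4 < J →
    a ≤ j1 → j1 ≤ a + W → a ≤ j2 → j2 ≤ a + W → a ≤ j3 → j3 ≤ a + W → a ≤ j4 → j4 ≤ a + W →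
    t1 ∈ S j1 → t2 ∈ S j2 → t3 ∈ S j3 → t4 ∈ S j4 →
    |(j1 : ℤ) - j2 - j3 + j4| ≤ 1 → (P : ℤ) ∣ (t1 : ℤ) - t2 - t3 + t4 →
    (j1 = j2 ∧ t1 = t2 ∧ j3 = j4 ∧ t3 = t4) ∨ (j1 = j3 ∧ t1 = t3 ∧ j2 = j4 ∧ t2 = t4)

/-- The pattern.  `cl k = zz l k / P`, candidates `k < n := J P / (6 l) + 1` with `zz l k < J P`,
edges the pairs `k < k' < n` with `zz l k' = zz l k + e P`, `1 ≤ e < J`. -/
def St_Pat : Prop := ∀ (l P J W h : ℕ) (need : ℕ → ℕ), l.Prime → P.Prime → 5 ≤ l → 6 * l < P →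
  J * P / (6 * l) + 1 ≤ P →
  (∀ x : ℕ, x * (x - 1)
    ≤ 2 * ((J * P / (6 * l) + 1) / l + 1) * (((J * P / (6 * l) + 1) / l + 1) * J) → x ≤ h) →
  (∀ j < J, need j + h + 2 ≤ P / (6 * l)) → (W + 1) * P + 3 * l ≤ 6 * l * l →
  ∃ S : ℕ → Finset ℕ, (∀ j < J, S j ⊆ range P ∧ (S j).card = need j) ∧
    (∀ i < J, ∀ j < J, i ≠ j → Disjoint (S i) (S j)) ∧ Thick P J W S

/-- The realizations. -/
def img (P J : ℕ) (S : ℕ → Finset ℕ) (u v : ℕ) : Finset ℕ :=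
  (range J).biUnion fun j => (S j).image fun t => j * P + 1 + (u * t + v) % P

/-- The affine average. -/
def St_Aff : Prop := ∀ (P J N : ℕ) (S : ℕ → Finset ℕ), P.Prime → J * P ≤ N →
  (∀ j < J, S j ⊆ range P) → (∀ i < J, ∀ j < J, i ≠ j → Disjoint (S i) (S j)) →
  (∀ e : ℕ, 1 ≤ e → ∑ j ∈ range (J - e), (S j).card * (S (j + e)).card ≤ P - 1) →
  (∑ j ∈ range J, (S j).card * ((S j).card - 1) ≤ P - 1) →
  (∀ i < J, ∑ j ∈ range J, (S j).card ^ 2 + 2 * (S i).card ≤ 2 * (P - 1)) →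
  ∃ p : Finset ℕ → ℝ, IsSidonOnAverage N p ∧
    meanCard N p = ∑ j ∈ range J, ((S j).card : ℝ) ∧
    ∀ A : Finset ℕ, p A ≠ 0 → ∃ u v : ℕ, 1 ≤ u ∧ u < P ∧ v < P ∧ A = img P J S u v

/-- The Sidon property, spelled out. -/
def SidonF (A : Finset ℕ) : Prop :=
  ∀ a ∈ A, ∀ b ∈ A, ∀ c ∈ A, ∀ d ∈ A, a + b = c + d → (a = c ∧ b = d) ∨ (a = d ∧ b = c)

/-- The realizations are Sidon sets in intervals of length `W P`. -/
def St_Loc : Prop := ∀ (P J W : ℕ) (S : ℕ → Finset ℕ), P.Prime → (∀ j < J, S j ⊆ range P) →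
  Thick P J W S → ∀ u v : ℕ, 1 ≤ u → u < P → v < P → ∀ x : ℕ,
  SidonF ((img P J S u v).filter fun a => x ≤ a ∧ a ≤ x + W * P)

/-- Balanced rounding: `n_j = ⌊L_(j+1)⌋ - ⌊L_j⌋`, `L_j` the sums up to `j`; Abel summation. -/
def St_Rnd : Prop := ∀ (J : ℕ) (lam : ℕ → ℝ) (V : ℝ), (∀ j, 0 ≤ lam j) →
  (∀ j < J, lam j + ∑ i ∈ range (J - 1), |lam (i + 1) - lam i| ≤ V) → 0 ≤ V →
  ∃ n : ℕ → ℕ, (∀ j < J, (n j : ℝ) ≤ lam j + 1) ∧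
    (∑ j ∈ range J, lam j - 1 ≤ ∑ j ∈ range J, (n j : ℝ)) ∧
    (∀ e : ℕ, ∑ j ∈ range (J - e), (n j : ℝ) * n (j + e)
      ≤ ∑ j ∈ range (J - e), lam j * lam (j + e) + 2 * V + J)

/-- The parameters `P, J, U, G`.  With `X = N^(1/4)`, `η = min (ε/30) (1/200)`, `P` a prime in
`(η X^3/2, η X^3]` (Bertrand), `J = N / P`, `E = 44 X + 2 X/η + 4`, `G = √((P - E)/J)`,
`U = ⌊√2 X^3/P⌋ - 25`. -/
def St_Nua : Prop := ∀ ε : ℝ, 0 < ε → ∃ η : ℝ, 0 < η ∧ η ≤ 1 / 200 ∧ ∃ N0 : ℕ, ∀ N : ℕ, N0 ≤ N →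
  ∃ (P J U : ℕ) (G : ℝ), P.Prime ∧ 0 < G ∧ J * P ≤ N ∧ Good U J ∧
    η * ((N : ℝ) ^ (1 / 4 : ℝ)) ^ 3 / 2 < P ∧ (P : ℝ) ≤ η * ((N : ℝ) ^ (1 / 4 : ℝ)) ^ 3 ∧
    (J : ℝ) ≤ 2 * (N : ℝ) ^ (1 / 4 : ℝ) / η ∧ G * U ≤ 2 * (N : ℝ) ^ (1 / 4 : ℝ) ∧
    G ^ 2 * J + 22 * (G * U) + J ≤ P - 1 ∧
    G ^ 2 * (J + (U : ℝ) ^ 2 / 2 + 20 * U) + 22 * (G * U) + J - G * J + 1 ≤ P - 1 ∧
    G ^ 2 * (J + (U : ℝ) ^ 2 / 2 + 20 * U) + 22 * (G * U) + J + 2 * (G * U + 1) ≤ 2 * (P - 1) ∧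
    √(N : ℝ) + (2 * √2 / 3 - ε) * (N : ℝ) ^ (1 / 4 : ℝ)
      ≤ G * (J + 2 * ((U : ℝ) - 1) / 3 - 1) - 1

/-- The parameters `l, W, h`.  `l` a prime in `(x, 2 x]`, `x = ⌊P / (60 X)⌋`,
`W = (6 l l - 3 l) / P - 1`, `h = ⌊X⌋`, `c = η^2/3000`. -/
def St_Nub : Prop := ∀ η : ℝ, 0 < η → η ≤ 1 / 200 → ∃ c : ℝ, 0 < c ∧ ∃ N0 : ℕ,
  ∀ N P J : ℕ, N0 ≤ N → P.Prime → J * P ≤ N →
    η * ((N : ℝ) ^ (1 / 4 : ℝ)) ^ 3 / 2 < P → (P : ℝ) ≤ η * ((N : ℝ) ^ (1 / 4 : ℝ)) ^ 3 →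
    (J : ℝ) ≤ 2 * (N : ℝ) ^ (1 / 4 : ℝ) / η →
    ∃ l W h : ℕ, l.Prime ∧ 5 ≤ l ∧ 6 * l < P ∧ J * P / (6 * l) + 1 ≤ P ∧
      (∀ x : ℕ, x * (x - 1)
        ≤ 2 * ((J * P / (6 * l) + 1) / l + 1) * (((J * P / (6 * l) + 1) / l + 1) * J) → x ≤ h) ∧
      2 * (N : ℝ) ^ (1 / 4 : ℝ) + 1 + h + 2 ≤ ((P / (6 * l) : ℕ) : ℝ) ∧
      (W + 1) * P + 3 * l ≤ 6 * l * l ∧ c * N ≤ (W : ℝ) * P

/-- The barrier theorem. -/
def St_Bar : Prop := ∀ ε : ℝ, 0 < ε → ∃ c : ℝ, 0 < c ∧ ∃ N0 : ℕ, ∀ N : ℕ, N0 ≤ N →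
  ∃ p : Finset ℕ → ℝ, IsSidonOnAverage N p ∧
    (∀ A : Finset ℕ, p A ≠ 0 → ∀ x : ℕ,
      SidonF (A.filter fun a => x ≤ a ∧ (a : ℝ) ≤ x + c * N)) ∧
    √(N : ℝ) + (2 * √2 / 3 - ε) * (N : ℝ) ^ (1 / 4 : ℝ) ≤ meanCard N p

end Pool.Agent.SBV
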